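import Pool.Agent.DL.Abel

/-!
# DLP ABEL (discrete Abel summation up to any `N ≤ n`)
-/

set_option autoImplicit false

namespace Pool.Agent.DLP

open Pool.Agent.DL

theorem abelN (s : ℕ → ℝ) (C : ℝ) (hC : 0 ≤ C)
    (hS : ∀ N : ℕ, 1 ≤ N → |(∑ k ∈ Finset.Icc 1 N, s k) - Real.log N / 2| ≤ C)
    (N n : ℕ) (hN1 : 1 ≤ N) (hNn : N ≤ n) (L : ℝ) (hL : 1 ≤ L) :
    √(Real.log n + L) - √(Real.log n + L - Real.log N) - 2 * C ≤
      ∑ k ∈ Finset.Icc 1 N, s k / √(Real.log (n / k) + L) := by
  have hn1 : 1 ≤ n := hN1.trans hNn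
  have hn0 : (0 : ℝ) < n := by exact_mod_cast hn1
  set A : ℝ := Real.log n + L with hA
  set h : ℕ → ℝ := fun k => 1 / √(A - Real.log k) with hh
  have hAk : ∀ k : ℕ, 1 ≤ k → k ≤ n → 1 ≤ A - Real.log k := by
    intro k hk hkn
    have : Real.log k ≤ Real.log n := Real.log_le_log (by exact_mod_cast hk) (by exact_mod_cast hkn)
    rw [hA]
    linarith
  have hterm : ∀ k : ℕ, 1 ≤ k → s k / √(Real.log (n / k) + L) = s k * h k := by
    intro k hk
    have hk0 : (0 : ℝ) < k := by exact_mod_cast hk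
    rw [Real.log_div hn0.ne' hk0.ne', hh, hA, mul_one_div]
    congr 2
    ring
  have key : ∀ N : ℕ, 1 ≤ N → N ≤ n →
      √A - √(A - Real.log N) + ((∑ k ∈ Finset.Icc 1 N, s k) - Real.log N / 2) * h N
        - C * h N + C * h 1 ≤ ∑ k ∈ Finset.Icc 1 N, s k * h k := by
    intro N hN
    induction N, hN using Nat.le_induction with
    | base =>
      intro _
      simp
    | succ N hN ih =>
      intro hN1
      have ih' := ih (by omega)
      rw [Finset.sum_Icc_succ_top (by omega), Finset.sum_Icc_succ_top (by omega)]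
      have hx := hAk N hN (by omega)
      have hy := hAk (N + 1) (by omega) hN1
      have hlog : Real.log (N : ℝ) ≤ Real.log ((N + 1 : ℕ) : ℝ) :=
        Real.log_le_log (by exact_mod_cast hN) (by exact_mod_cast Nat.le_succ N)
      have h1 := ABELsqrt_sub_le (x := A - Real.log (N : ℝ)) (y := A - Real.log ((N + 1 : ℕ) : ℝ))
        (by linarith) (by linarith)
      have h2 : h N ≤ h (N + 1) := by
        rw [hh]
        dsimp only
        apply one_div_le_one_div_of_le (Real.sqrt_pos.2 (by linarith))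
        exact Real.sqrt_le_sqrt (by linarith)
      have h3 := abs_le.1 (hS N hN)
      have h4 : 0 ≤ (C - ((∑ k ∈ Finset.Icc 1 N, s k) - Real.log N / 2)) * (h (N + 1) - h N) :=
        mul_nonneg (by linarith [h3.2]) (by linarith)
      have h5 : h (N + 1) = 1 / √(A - Real.log ((N + 1 : ℕ) : ℝ)) := rfl
      rw [← h5] at h1
      nlinarith
  have hkey := key N hN1 hNn
  have hsum : ∑ k ∈ Finset.Icc 1 N, s k / √(Real.log (n / k) + L) =
      ∑ k ∈ Finset.Icc 1 N, s k * h k := by
    apply Finset.sum_congr rfl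
    intro k hk
    exact hterm k (Finset.mem_Icc.1 hk).1
  rw [hsum]
  have h12 : 0 ≤ h 1 := by
    rw [hh]
    positivity
  have h13 : 0 ≤ h N := by
    rw [hh]
    positivity
  have h14 : h N ≤ 1 := by
    have h15 := hAk N hN1 hNn
    have h16 : 1 ≤ √(A - Real.log N) := by
      rw [show (1 : ℝ) = √1 by simp]
      exact Real.sqrt_le_sqrt h15
    rw [hh]
    dsimp only
    rw [div_le_one (by linarith)]
    exact h16
  have h17 := (abs_le.1 (hS N hN1)).1
  have h18 : -C * h N ≤ ((∑ k ∈ Finset.Icc 1 N, s k) - Real.log N / 2) * h N :=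
    mul_le_mul_of_nonneg_right h17 h13
  nlinarith [mul_nonneg hC h12, mul_le_mul_of_nonneg_left h14 hC]

end Pool.Agent.DLP
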