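import Pool.Agent.DLP.Defs
import Pool.Agent.DL.Step

/-!
# DLP COS (descent to all cosets of a sublattice of index `p`)
-/

set_option autoImplicit false

namespace Pool.Agent.DLP

open Pool.Agent.DL

theorem cosets (a b c d : ℤ) (ha : 0 < a) (hd : a * c - b ^ 2 = d) (p : ℕ) (hp : Split d p)
    (P : Finset (ℤ × ℤ)) (al be : ℝ) (hR : InRect a b c P al be) :
    ∃ (a' b' c' : ℤ) (Q : Fin p → Finset (ℤ × ℤ)), 0 < a' ∧ a' * c' - b' ^ 2 = d ∧
      (∑ i, (Q i).card = P.card) ∧ (∀ i, InRect a' b' c' (Q i) (al / √p) (be / √p)) ∧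
      (∑ i, WW a' b' c' (Q i) ≤
        ∑ x ∈ P, ((pv a b c P x).filter (fun m => (p : ℤ) ∣ m)).card) := by
  classical
  obtain ⟨a', b', c', T, t, ha', hd', hT, hq, hw⟩ := sublattice a b c d ha hd p hp
  choose i v hiv using hw
  have hp0 : 0 < p := hp.1.pos
  have hpr : (0 : ℝ) < p := by exact_mod_cast hp0
  have hpz : (p : ℤ) ≠ 0 := by exact_mod_cast hp0.ne'
  have hsp : 0 < √(p : ℝ) := Real.sqrt_pos.2 hpr
  have hsub : ∀ w w', i w = i w' → T (v w - v w') = w - w' := by
    intro w w' h
    rw [map_sub]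
    have h1 := hiv w
    have h2 := hiv w'
    rw [h] at h1
    have e1 : T (v w) = w - t (i w') := by
      rw [eq_sub_iff_add_eq, add_comm]; exact h1.symm
    have e2 : T (v w') = w' - t (i w') := by
      rw [eq_sub_iff_add_eq, add_comm]; exact h2.symm
    rw [e1, e2]
    abel
  have hvinj : ∀ w w', i w = i w' → v w = v w' → w = w' := by
    intro w w' h h'
    rw [hiv w, hiv w', h, h']
  have hinj : ∀ j : Fin p, Set.InjOn v ((P.filter (fun w => i w = j) : Finset (ℤ × ℤ)) : Set (ℤ × ℤ)) := by
    intro j w hw w' hw' h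
    have h1 := (Finset.mem_filter.1 (Finset.mem_coe.1 hw)).2
    have h2 := (Finset.mem_filter.1 (Finset.mem_coe.1 hw')).2
    exact hvinj w w' (h1.trans h2.symm) h
  refine ⟨a', b', c', fun j => (P.filter (fun w => i w = j)).image v, ha', hd', ?_, ?_, ?_⟩
  · have h1 : ∀ j, ((P.filter (fun w => i w = j)).image v).card = (P.filter (fun w => i w = j)).card :=
      fun j => Finset.card_image_of_injOn (hinj j)
    simp only [h1]
    exact (Finset.card_eq_sum_card_fiberwise (fun w _ => Finset.mem_univ (i w))).symm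
  · intro j
    obtain ⟨f, g, hfg, hb⟩ := hR
    refine ⟨(AddMonoidHom.mulLeft (1 / √(p : ℝ))).comp (f.comp T),
      (AddMonoidHom.mulLeft (1 / √(p : ℝ))).comp (g.comp T), ?_, ?_⟩
    · intro w
      have h1 := hfg (T w)
      rw [hq] at h1
      push_cast at h1
      simp only [AddMonoidHom.comp_apply, AddMonoidHom.coe_mulLeft]
      rw [mul_pow, mul_pow, div_pow, Real.sq_sqrt hpr.le, ← mul_add, ← h1]
      field_simp
    · intro u hu w hw
      obtain ⟨u', hu', rfl⟩ := Finset.mem_image.1 hu
      obtain ⟨w', hw', rfl⟩ := Finset.mem_image.1 hw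
      rw [Finset.mem_filter] at hu' hw'
      have h1 := hb u' hu'.1 w' hw'.1
      simp only [AddMonoidHom.comp_apply, AddMonoidHom.coe_mulLeft]
      rw [hsub u' w' (hu'.2.trans hw'.2.symm), abs_mul, abs_mul, abs_of_pos (by positivity : 0 < 1 / √(p : ℝ))]
      constructor
      · rw [one_div, mul_comm, ← div_eq_mul_inv]
        exact div_le_div_of_nonneg_right h1.1 hsp.le
      · rw [one_div, mul_comm, ← div_eq_mul_inv]
        exact div_le_div_of_nonneg_right h1.2 hsp.le
  · have key : ∀ w ∈ P, (pv a' b' c' ((P.filter (fun w' => i w' = i w)).image v) (v w)).card ≤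
        ((pv a b c P w).filter (fun m => (p : ℤ) ∣ m)).card := by
      intro w hw
      apply Finset.card_le_card_of_injOn (fun m => (p : ℤ) * m)
      · intro m hm
        simp only [pv, Finset.coe_image, Set.mem_image, Finset.mem_coe, Finset.mem_erase,
          Finset.mem_image, Finset.mem_filter] at hm
        obtain ⟨y, ⟨hy1, w', ⟨hw'1, hw'2⟩, rfl⟩, rfl⟩ := hm
        simp only [Finset.coe_filter, Set.mem_ofPred_eq, pv, Finset.mem_image, Finset.mem_erase]
        refine ⟨⟨w', ⟨?_, hw'1⟩, ?_⟩, dvd_mul_right _ _⟩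
        · rintro rfl
          exact hy1 rfl
        · rw [← hq, hsub w w' hw'2.symm]
      · intro m _ m' _ h
        exact mul_left_cancel₀ hpz h
    calc ∑ j, WW a' b' c' ((P.filter (fun w => i w = j)).image v)
        = ∑ j, ∑ w ∈ P.filter (fun w => i w = j),
            (pv a' b' c' ((P.filter (fun w' => i w' = j)).image v) (v w)).card := by
          apply Finset.sum_congr rfl
          intro j _
          unfold WW
          rw [Finset.sum_image (hinj j)]
      _ ≤ ∑ j, ∑ w ∈ P.filter (fun w => i w = j),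
            ((pv a b c P w).filter (fun m => (p : ℤ) ∣ m)).card := by
          apply Finset.sum_le_sum
          intro j _
          apply Finset.sum_le_sum
          intro w hw
          rw [Finset.mem_filter] at hw
          have h := key w hw.1
          rw [hw.2] at h
          exact h
      _ = ∑ x ∈ P, ((pv a b c P x).filter (fun m => (p : ℤ) ∣ m)).card :=
          Finset.sum_fiberwise_of_maps_to (fun w _ => Finset.mem_univ (i w)) _

end Pool.Agent.DLP
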