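import Pool.Agent.DL.Defs

/-!
# DLP: pinned distances of subsets of lattices, rectangles  --  definitions

MAIN THEOREM (file `Main.lean`): for every lattice in the plane there is `c > 0` such that for every
finite subset `S` with `n ≥ 2` points inside a rectangle with sides `α`, `β` the sum over `x ∈ S` of the
number of distances from `x` to the other points is at least
`c n² / √(log (2 + α β / n) · log (2 n + α β))`.
-/

set_option autoImplicit false

namespace Pool.Agent.DLP

open Pool.Agent.DL

/-- the values of the form on the differences `x - y`, `y ∈ P`, `y ≠ x` -/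
def pv (a b c : ℤ) (P : Finset (ℤ × ℤ)) (x : ℤ × ℤ) : Finset ℤ :=
  (P.erase x).image (fun y => qf a b c (x - y))

/-- sum over the points of the number of values seen from the point -/
def WW (a b c : ℤ) (P : Finset (ℤ × ℤ)) : ℕ := ∑ x ∈ P, (pv a b c P x).card

/-- `P` lies in a rectangle of sides `al`, `be` for the geometry of the form -/
def InRect (a b c : ℤ) (P : Finset (ℤ × ℤ)) (al be : ℝ) : Prop :=
  ∃ f g : ℤ × ℤ →+ ℝ, (∀ v, (qf a b c v : ℝ) = f v ^ 2 + g v ^ 2) ∧
    ∀ u ∈ P, ∀ v ∈ P, |f (u - v)| ≤ al ∧ |g (u - v)| ≤ be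

/-- the lower bound function: `n` times `c n / √(L A)` with `A = log n + L` -/
noncomputable def hG (c A s : ℝ) : ℝ := c * s ^ 2 / √((A - Real.log s) * A)

end Pool.Agent.DLP
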