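import Pool.Agent.DLP.AbelN
import Pool.Agent.DLP.Defs
import Pool.Agent.DL.Gg

/-!
# DLP INEQ (the inequality of the induction step)
-/

set_option autoImplicit false

namespace Pool.Agent.DLP

open Pool.Agent.DL

theorem sum_wt (d M N : ℕ) (hMN : M ≤ N) :
    ∑ p ∈ sp d M N, wt d p = SS d N - SS d M := by
  classical
  unfold SS
  have e1 : Finset.Icc 1 N = Finset.Icc 1 M ∪ Finset.Ioc M N := by
    ext x
    simp only [Finset.mem_union, Finset.mem_Icc, Finset.mem_Ioc]
    omega
  have e2 : Disjoint (Finset.Icc 1 M) (Finset.Ioc M N) := by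
    rw [Finset.disjoint_left]
    intro x h1 h2
    simp only [Finset.mem_Icc, Finset.mem_Ioc] at h1 h2
    omega
  rw [e1, Finset.sum_union e2]
  unfold sp
  rw [Finset.sum_filter]
  have e3 : ∑ a ∈ Finset.Ioc M N, (if Split d a then wt d a else 0) =
      ∑ a ∈ Finset.Ioc M N, wt d a := by
    apply Finset.sum_congr rfl
    intro a _
    unfold wt
    by_cases h : Split d a
    · simp [h]
    · simp [h]
  rw [e3]
  ring

theorem sp_split (d M N : ℕ) (f : ℕ → ℝ) (hMN : M ≤ N) :
    ∑ p ∈ sp d 0 N, f p = ∑ p ∈ sp d 0 M, f p + ∑ p ∈ sp d M N, f p := by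
  classical
  have hsplit : sp d 0 N = sp d 0 M ∪ sp d M N := by
    ext p
    simp only [sp, Finset.mem_union, Finset.mem_filter, Finset.mem_Ioc]
    constructor
    · rintro ⟨⟨h1, h2⟩, h3⟩
      by_cases h : p ≤ M
      · exact Or.inl ⟨⟨h1, h⟩, h3⟩
      · exact Or.inr ⟨⟨by omega, h2⟩, h3⟩
    · rintro (⟨⟨h1, h2⟩, h3⟩ | ⟨⟨h1, h2⟩, h3⟩)
      · exact ⟨⟨h1, by omega⟩, h3⟩
      · exact ⟨⟨by omega, h2⟩, h3⟩
  have hdisj : Disjoint (sp d 0 M) (sp d M N) := by
    rw [Finset.disjoint_left]
    intro p h1 h2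
    simp only [sp, Finset.mem_filter, Finset.mem_Ioc] at h1 h2
    omega
  rw [hsplit, Finset.sum_union hdisj]

/-- the first sum -/
theorem first_sum (d : ℕ) (C : ℝ) (hC : 0 ≤ C)
    (hS : ∀ N : ℕ, 1 ≤ N → |SS d N - Real.log N / 2| ≤ C) (c : ℝ) (hc : 0 < c)
    (n M : ℕ) (hM1 : 1 ≤ M) (hMn : 2 * M ≤ n) (L : ℝ) (hL : 1 ≤ L) (D : ℕ → ℝ)
    (hD : ∀ p, Split d p → p ≤ M → c * (n / p) / √(L * (Real.log (n / p) + L)) ≤ D p) :
    c * n / √L * (√(Real.log n + L) - √(Real.log n + L - Real.log M) - 2 * C) ≤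
      ∑ p ∈ sp d 0 M, Real.log p * D p := by
  classical
  have hL0 : 0 < L := by linarith
  have hab := abelN (wt d) C hC hS M n hM1 (by omega) L hL
  have h1 : c * n / √L * ∑ k ∈ Finset.Icc 1 M, wt d k / √(Real.log (n / k) + L) ≤
      ∑ p ∈ sp d 0 M, Real.log p * D p := by
    have e : ∑ k ∈ Finset.Icc 1 M, wt d k / √(Real.log (n / k) + L) =
        ∑ k ∈ sp d 0 M, Real.log k / k / √(Real.log (n / k) + L) := by
      have e1 : sp d 0 M = (Finset.Icc 1 M).filter (fun p => Split d p) := by
        ext p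
        simp only [sp, Finset.mem_filter, Finset.mem_Ioc, Finset.mem_Icc]
        constructor
        · rintro ⟨⟨h1, h2⟩, h3⟩
          exact ⟨⟨by omega, h2⟩, h3⟩
        · rintro ⟨⟨h1, h2⟩, h3⟩
          exact ⟨⟨by omega, h2⟩, h3⟩
      rw [e1, Finset.sum_filter]
      apply Finset.sum_congr rfl
      intro k _
      unfold wt
      by_cases hk : Split d k
      · simp [hk]
      · simp [hk]
    rw [e, Finset.mul_sum]
    apply Finset.sum_le_sum
    intro p hp
    simp only [sp, Finset.mem_filter, Finset.mem_Ioc] at hp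
    obtain ⟨⟨hp0, hpN⟩, hps⟩ := hp
    have hp0r : (0 : ℝ) < p := by exact_mod_cast hp0
    have hlogp : 0 ≤ Real.log p := Real.log_nonneg (by exact_mod_cast hp0)
    have h2 := hD p hps hpN
    have h3 := mul_le_mul_of_nonneg_left h2 hlogp
    refine le_trans (le_of_eq ?_) h3
    have hle : (1 : ℝ) ≤ n / p := by
      rw [le_div_iff₀ hp0r, one_mul]
      exact_mod_cast (by omega : p ≤ n)
    rw [Real.sqrt_mul hL0.le]
    have hs1 : √L ≠ 0 := by positivity
    have hs2 : √(Real.log (n / p) + L) ≠ 0 := by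
      have := Real.log_nonneg hle
      exact (Real.sqrt_pos.2 (by linarith)).ne'
    field_simp
  refine le_trans ?_ h1
  exact mul_le_mul_of_nonneg_left hab (by positivity)

theorem step2 (d : ℕ) (C : ℝ) (hC : 0 ≤ C)
    (hS : ∀ N : ℕ, 1 ≤ N → |SS d N - Real.log N / 2| ≤ C)
    (Z : ℕ) (hZ : 10 ≤ Z) (hZ2 : 1 ≤ Real.log (Z / 4) / 2 - 2 * C)
    (hZ3 : 2 * Real.log 3 + 8 * C ≤ Real.log Z)
    (c : ℝ) (hc : 0 < c)
    (hc1 : c * (1 + Real.log (2 * Z) + √(1 + Real.log (2 * Z)) + 2 * C) ≤ 1 / (4 * Z))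
    (hc2 : c * (64 * (6 + 2 * C)) ≤ 1)
    (n : ℕ) (hn : Z ≤ n) (x y : ℝ) (hy : 0 ≤ y) (L : ℝ) (hL : 1 ≤ L)
    (hLe : Real.log n + L = x + y + 4)
    (hxy : y ≤ x)
    (V : ℝ) (D : ℕ → ℝ)
    (hD1 : ∀ p, Split d p → 2 * p ≤ n → 1 / 2 ≤ D p)
    (hD2 : ∀ p, Split d p → 2 * p ≤ n → (p : ℝ) ≤ Real.exp (2 * y) →
      c * (n / p) / √(L * (Real.log (n / p) + L)) ≤ D p)
    (hD3 : ∀ p, Split d p → 2 * p ≤ n → Real.exp (2 * y) < p → n / (16 * p) ≤ D p)
    (hV : ∑ p ∈ sp d 0 (n / 2), Real.log p * D p ≤ V * (2 * x + Real.log 2)) :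
    gg c L n ≤ V := by
  have hZ0 : 0 < Z := by omega
  set N := n / Z with hN
  have hN1 : 1 ≤ N := (Nat.one_le_div_iff hZ0).2 hn
  have hNZ : N * Z ≤ n := Nat.div_mul_le_self n Z
  have hN10 : 10 * N ≤ n := by
    have : N * 10 ≤ N * Z := Nat.mul_le_mul_left _ hZ
    omega
  have hnpos : (0 : ℝ) < n := by exact_mod_cast (by omega : 0 < n)
  have hZr : (10 : ℝ) ≤ Z := by exact_mod_cast hZ
  have hNr : (1 : ℝ) ≤ N := by exact_mod_cast hN1
  have hlogn : 0 ≤ Real.log n := Real.log_nonneg (by exact_mod_cast (by omega : 1 ≤ n))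
  have hL0 : 0 < L := by linarith
  set A := Real.log n + L with hA
  have hA1 : 1 ≤ A := by linarith
  have hA0 : 0 < A := by linarith
  have hsA : 0 < √A := Real.sqrt_pos.2 hA0
  have hAA : √A * √A = A := Real.mul_self_sqrt hA0.le
  have hsL : 1 ≤ √L := by rw [Real.one_le_sqrt]; exact hL
  have hsL0 : 0 < √L := by linarith
  have hlog2 : 0 < Real.log 2 := Real.log_pos (by norm_num)
  have hlog2' : Real.log 2 ≤ 1 := by have := Real.log_two_lt_d9; linarith
  have hlog2Z : 0 ≤ Real.log (2 * Z) := Real.log_nonneg (by linarith)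
  -- log (n/2) and log n
  have hn2 : (n : ℝ) / 3 ≤ ((n / 2 : ℕ) : ℝ) := by
    have h1 : n ≤ 3 * (n / 2) := by omega
    have h2 : (n : ℝ) ≤ 3 * ((n / 2 : ℕ) : ℝ) := by exact_mod_cast h1
    linarith
  have hlogn2 : Real.log n - Real.log 3 ≤ Real.log ((n / 2 : ℕ) : ℝ) := by
    rw [← Real.log_div hnpos.ne' (by norm_num)]
    exact Real.log_le_log (by positivity) hn2
  have hB0 : 0 < 2 * x + Real.log 2 := by linarith
  have hgg : gg c L n = c * n / √L / √A := by
    unfold gg
    rw [← hA, Real.sqrt_mul hL0.le, div_div]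
  set K : ℝ := c * n / √L with hK
  have hK0 : 0 < K := by rw [hK]; positivity
  have hKc : K ≤ c * n := by
    rw [hK, div_le_iff₀ hsL0]
    nlinarith [mul_pos hc hnpos]
  have hKL : K * √L = c * n := by rw [hK]; field_simp
  -- it is enough to bound `gg * B`
  suffices H : K / √A * (2 * x + Real.log 2) ≤ ∑ p ∈ sp d 0 (n / 2), Real.log p * D p by
    rw [hgg]
    exact le_of_mul_le_mul_right (H.trans hV) hB0
  have hx2 : 2 * x = 2 * A - 8 - 2 * y := by linarith
  rcases le_or_gt (N : ℝ) (Real.exp (2 * y)) with hcase | hcase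
  · -- fat case
    have hfirst := first_sum d C hC hS c hc n N hN1 (by omega) L hL D (by
      intro p hp hpN
      exact hD2 p hp (by omega) (le_trans (by exact_mod_cast hpN) hcase))
    rw [← hA, ← hK] at hfirst
    have h2ZN : (n : ℝ) ≤ 2 * Z * N := by
      have h1 : n < Z * (N + 1) := by
        rw [hN]
        exact Nat.lt_mul_div_succ n hZ0
      have h2 : n ≤ 2 * Z * N := by nlinarith
      exact_mod_cast h2
    have hlogN : Real.log n ≤ Real.log (2 * Z) + Real.log N := by
      rw [← Real.log_mul (by positivity) (by positivity)]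
      exact Real.log_le_log hnpos h2ZN
    have hsecond : (n : ℝ) * (1 / (4 * Z)) ≤ ∑ p ∈ sp d N (n / 2), Real.log p * D p := by
      have h1 : ∑ p ∈ sp d N (n / 2), (N : ℝ) / 2 * wt d p ≤
          ∑ p ∈ sp d N (n / 2), Real.log p * D p := by
        apply Finset.sum_le_sum
        intro p hp
        simp only [sp, Finset.mem_filter, Finset.mem_Ioc] at hp
        obtain ⟨⟨hpN, hpn⟩, hps⟩ := hp
        have hp1 : 1 ≤ p := by omega
        have hp0r : (0 : ℝ) < p := by exact_mod_cast (by omega : 0 < p)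
        have hlogp : 0 ≤ Real.log p := Real.log_nonneg (by exact_mod_cast hp1)
        have hNp : (N : ℝ) ≤ p := by exact_mod_cast (by omega : N ≤ p)
        have h2 := hD1 p hps (by omega)
        unfold wt
        rw [if_pos hps]
        have h3 : (N : ℝ) / 2 * (Real.log p / p) ≤ Real.log p * (1 / 2) := by
          have : (N : ℝ) / p ≤ 1 := (div_le_one hp0r).2 hNp
          calc (N : ℝ) / 2 * (Real.log p / p) = Real.log p * (1 / 2) * (N / p) := by ring
            _ ≤ Real.log p * (1 / 2) * 1 := mul_le_mul_of_nonneg_left this (by positivity)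
            _ = Real.log p * (1 / 2) := mul_one _
        exact h3.trans (mul_le_mul_of_nonneg_left h2 hlogp)
      refine le_trans ?_ h1
      rw [← Finset.mul_sum, sum_wt d N (n / 2) (by omega)]
      have h3 := abs_le.1 (hS (n / 2) (by omega))
      have h4 := abs_le.1 (hS N hN1)
      have h5 : Real.log (Z / 4) ≤ Real.log ((n / 2 : ℕ) : ℝ) - Real.log N := by
        have hn1 : (0 : ℝ) < ((n / 2 : ℕ) : ℝ) := by exact_mod_cast (by omega : 0 < n / 2)
        rw [← Real.log_div hn1.ne' (by positivity)]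
        apply Real.log_le_log (by positivity)
        rw [div_le_div_iff₀ (by norm_num) (by positivity)]
        have h7 : Z * N ≤ (n / 2) * 4 := by
          have : Z * N ≤ n := by rw [mul_comm]; exact hNZ
          omega
        exact_mod_cast h7
      have h6 : 1 ≤ SS d (n / 2) - SS d N := by linarith [h3.1, h4.2]
      have h7 : (n : ℝ) * (1 / (4 * Z)) ≤ N / 2 := by
        rw [mul_one_div, div_le_iff₀ (by positivity)]
        linarith
      nlinarith
    rw [sp_split d N (n / 2) _ (by omega)]
    -- B ≤ A + L + log 2Z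
    have hyl : Real.log N ≤ 2 * y := by
      rw [← Real.log_exp (2 * y)]
      exact Real.log_le_log (by linarith) hcase
    have hB : 2 * x + Real.log 2 ≤ A + L + Real.log (2 * Z) := by
      have : Real.log n = A - L := by rw [hA]; ring
      linarith
    have hAN : A - Real.log N ≤ Real.log (2 * Z) + L := by
      have : Real.log n = A - L := by rw [hA]; ring
      linarith
    have hs1 : √(A - Real.log N) ≤ √L * √(1 + Real.log (2 * Z)) := by
      rw [← Real.sqrt_mul hL0.le]
      apply Real.sqrt_le_sqrt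
      nlinarith
    have hLA : L ≤ A := by linarith
    have hq : (L + Real.log (2 * Z)) / √A ≤ √L * (1 + Real.log (2 * Z)) := by
      rw [div_le_iff₀ hsA]
      have h1 : L ≤ √L * √A := by
        calc L = √L * √L := (Real.mul_self_sqrt hL0.le).symm
          _ ≤ √L * √A := by gcongr
      have h2 : L + Real.log (2 * Z) ≤ L * (1 + Real.log (2 * Z)) := by nlinarith
      calc L + Real.log (2 * Z) ≤ L * (1 + Real.log (2 * Z)) := h2
        _ ≤ (√L * √A) * (1 + Real.log (2 * Z)) := by gcongr
        _ = √L * (1 + Real.log (2 * Z)) * √A := by ring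
    have hmain : K / √A * (2 * x + Real.log 2) ≤ K * √A + K * ((L + Real.log (2 * Z)) / √A) := by
      have h1 : K / √A * (2 * x + Real.log 2) ≤ K / √A * (A + L + Real.log (2 * Z)) :=
        mul_le_mul_of_nonneg_left hB (by positivity)
      refine h1.trans (le_of_eq ?_)
      have : A / √A = √A := by rw [div_eq_iff hsA.ne']; exact hAA.symm
      calc K / √A * (A + L + Real.log (2 * Z)) = K * (A / √A) + K * ((L + Real.log (2 * Z)) / √A) := by
            ring
        _ = _ := by rw [this]
    have herr : K * ((L + Real.log (2 * Z)) / √A) + K * √(A - Real.log N) + K * (2 * C) ≤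
        n * (1 / (4 * Z)) := by
      have h1 : K * ((L + Real.log (2 * Z)) / √A) ≤ K * (√L * (1 + Real.log (2 * Z))) :=
        mul_le_mul_of_nonneg_left hq hK0.le
      have h2 : K * √(A - Real.log N) ≤ K * (√L * √(1 + Real.log (2 * Z))) :=
        mul_le_mul_of_nonneg_left hs1 hK0.le
      have h3 : K * (2 * C) ≤ c * n * (2 * C) := mul_le_mul_of_nonneg_right hKc (by linarith)
      have h4 : K * (√L * (1 + Real.log (2 * Z))) = c * n * (1 + Real.log (2 * Z)) := by
        rw [← mul_assoc, hKL]
      have h5 : K * (√L * √(1 + Real.log (2 * Z))) = c * n * √(1 + Real.log (2 * Z)) := by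
        rw [← mul_assoc, hKL]
      have h6 := mul_le_mul_of_nonneg_left hc1 hnpos.le
      nlinarith
    have e1 : K * (√A - √(A - Real.log N) - 2 * C) =
        K * √A - K * √(A - Real.log N) - K * (2 * C) := by ring
    rw [e1] at hfirst
    linarith
  · -- thin case
    set M := ⌊Real.exp (2 * y)⌋₊ with hM
    have he1 : 1 ≤ Real.exp (2 * y) := Real.one_le_exp (by linarith)
    have hM1 : 1 ≤ M := by
      rw [hM]; exact Nat.le_floor (by exact_mod_cast he1)
    have hMe : (M : ℝ) ≤ Real.exp (2 * y) := Nat.floor_le (by positivity)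
    have hMlt : Real.exp (2 * y) < M + 1 := Nat.lt_floor_add_one _
    have hMN : M ≤ N := by
      have : (M : ℝ) < N := lt_of_le_of_lt hMe hcase
      exact_mod_cast this.le
    have hMr : (1 : ℝ) ≤ M := by exact_mod_cast hM1
    have hM2 : Real.exp (2 * y) ≤ 2 * M := by linarith
    have hfirst := first_sum d C hC hS c hc n M hM1 (by omega) L hL D (by
      intro p hp hpN
      exact hD2 p hp (by omega) (le_trans (by exact_mod_cast hpN) hMe))
    rw [← hA, ← hK] at hfirst
    set w := Real.log n - 2 * y with hw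
    have hlogM1 : Real.log M ≤ 2 * y := by
      rw [← Real.log_exp (2 * y)]
      exact Real.log_le_log (by linarith) hMe
    have hlogM2 : 2 * y - Real.log 2 ≤ Real.log M := by
      have h1 := Real.log_le_log (Real.exp_pos _) hM2
      rw [Real.log_exp, Real.log_mul (by norm_num) (by positivity)] at h1
      linarith
    have hwZ : Real.log Z ≤ w := by
      have h1 : Real.exp (2 * y) * Z ≤ n := by
        have h2 : (N : ℝ) * Z ≤ n := by exact_mod_cast hNZ
        have h3 : Real.exp (2 * y) * Z ≤ N * Z := by gcongr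
        linarith
      have h4 := Real.log_le_log (by positivity) h1
      rw [Real.log_mul (Real.exp_pos _).ne' (by positivity), Real.log_exp] at h4
      rw [hw]; linarith
    have hlogZ1 : 1 ≤ Real.log Z := by
      have h3 : Real.exp 1 ≤ Z := by have := Real.exp_one_lt_d9; linarith
      rw [Real.le_log_iff_exp_le (by positivity)]
      exact h3
    have hw1 : 1 ≤ w := by linarith
    have hlog3 : 0 ≤ Real.log 3 := Real.log_nonneg (by norm_num)
    have hsecond : (n : ℝ) * w / 64 ≤ ∑ p ∈ sp d M (n / 2), Real.log p * D p := by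
      have h1 : ∑ p ∈ sp d M (n / 2), (n : ℝ) / 16 * wt d p ≤
          ∑ p ∈ sp d M (n / 2), Real.log p * D p := by
        apply Finset.sum_le_sum
        intro p hp
        simp only [sp, Finset.mem_filter, Finset.mem_Ioc] at hp
        obtain ⟨⟨hpN, hpn⟩, hps⟩ := hp
        have hp1 : 1 ≤ p := by omega
        have hp0r : (0 : ℝ) < p := by exact_mod_cast (by omega : 0 < p)
        have hlogp : 0 ≤ Real.log p := Real.log_nonneg (by exact_mod_cast hp1)
        have hpe : Real.exp (2 * y) < p := by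
          have : ((M + 1 : ℕ) : ℝ) ≤ p := by exact_mod_cast (by omega : M + 1 ≤ p)
          push_cast at this
          linarith
        have h2 := hD3 p hps (by omega) hpe
        unfold wt
        rw [if_pos hps]
        have h3 : (n : ℝ) / 16 * (Real.log p / p) = Real.log p * (n / (16 * p)) := by
          field_simp
        rw [h3]
        exact mul_le_mul_of_nonneg_left h2 hlogp
      refine le_trans ?_ h1
      rw [← Finset.mul_sum, sum_wt d M (n / 2) (by omega)]
      have h3 := abs_le.1 (hS (n / 2) (by omega))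
      have h4 := abs_le.1 (hS M hM1)
      have h6 : w / 4 ≤ SS d (n / 2) - SS d M := by
        have h7 : Real.log n = w + 2 * y := by rw [hw]; ring
        linarith [h3.1, h4.2]
      nlinarith
    rw [sp_split d M (n / 2) _ (by omega)]
    have hAL : Real.log n = A - L := by rw [hA]; ring
    have hB : 2 * x + Real.log 2 ≤ A + (L + w) := by linarith
    have hAw : L + w ≤ A := by linarith
    have hs1 : √(A - Real.log M) ≤ √L * (w + 2) := by
      have h1 : √(A - Real.log M) ≤ √(L * (w + 2) ^ 2) := by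
        apply Real.sqrt_le_sqrt
        have h2 : A - Real.log M ≤ w + L + 1 := by linarith
        have h3 : w + L + 1 ≤ L * (w + 2) := by nlinarith
        have h4 : L * (w + 2) ≤ L * (w + 2) ^ 2 := by
          apply mul_le_mul_of_nonneg_left _ hL0.le
          nlinarith
        linarith
      rwa [Real.sqrt_mul hL0.le, Real.sqrt_sq (by linarith)] at h1
    have hq : (L + w) / √A ≤ √L * (w + 2) := by
      have h1 : (L + w) / √A ≤ √(L + w) := by
        rw [div_le_iff₀ hsA]
        calc L + w = √(L + w) * √(L + w) := (Real.mul_self_sqrt (by linarith)).symm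
          _ ≤ √(L + w) * √A := by gcongr
      have h2 : √(L + w) ≤ √(L * (w + 2) ^ 2) := by
        apply Real.sqrt_le_sqrt
        have h3 : L + w ≤ L * (w + 2) := by nlinarith
        have h4 : L * (w + 2) ≤ L * (w + 2) ^ 2 := by
          apply mul_le_mul_of_nonneg_left _ hL0.le
          nlinarith
        linarith
      rw [Real.sqrt_mul hL0.le, Real.sqrt_sq (by linarith)] at h2
      exact h1.trans h2
    have hmain : K / √A * (2 * x + Real.log 2) ≤ K * √A + K * ((L + w) / √A) := by
      have h1 : K / √A * (2 * x + Real.log 2) ≤ K / √A * (A + (L + w)) :=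
        mul_le_mul_of_nonneg_left hB (by positivity)
      refine h1.trans (le_of_eq ?_)
      have : A / √A = √A := by rw [div_eq_iff hsA.ne']; exact hAA.symm
      calc K / √A * (A + (L + w)) = K * (A / √A) + K * ((L + w) / √A) := by ring
        _ = _ := by rw [this]
    have herr : K * ((L + w) / √A) + K * √(A - Real.log M) + K * (2 * C) ≤ n * w / 64 := by
      have h1 : K * ((L + w) / √A) ≤ K * (√L * (w + 2)) := mul_le_mul_of_nonneg_left hq hK0.le
      have h2 : K * √(A - Real.log M) ≤ K * (√L * (w + 2)) := mul_le_mul_of_nonneg_left hs1 hK0.le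
      have h3 : K * (2 * C) ≤ c * n * (2 * C) := mul_le_mul_of_nonneg_right hKc (by linarith)
      have h4 : K * (√L * (w + 2)) = c * n * (w + 2) := by rw [← mul_assoc, hKL]
      have h5 : 2 * (w + 2) + 2 * C ≤ (6 + 2 * C) * w := by nlinarith
      have h6 : c * n * (2 * (w + 2) + 2 * C) ≤ c * n * ((6 + 2 * C) * w) :=
        mul_le_mul_of_nonneg_left h5 (by positivity)
      have h7 : c * (64 * (6 + 2 * C)) * (n * w) ≤ 1 * (n * w) :=
        mul_le_mul_of_nonneg_right hc2 (by positivity)
      nlinarith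
    have e1 : K * (√A - √(A - Real.log M) - 2 * C) =
        K * √A - K * √(A - Real.log M) - K * (2 * C) := by ring
    rw [e1] at hfirst
    linarith

end Pool.Agent.DLP
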