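import Pool.Agent.DLP.Defs
import Pool.Agent.DL.Count

/-!
# DLP PACK (packing bound and thin rectangles)
-/

set_option autoImplicit false

namespace Pool.Agent.DLP

open Pool.Agent.DL

theorem one_le_q (a b c d : ℤ) (ha : 0 < a) (hd : a * c - b ^ 2 = d) (hdp : 0 < d) (u v : ℤ × ℤ)
    (h : u ≠ v) : (1 : ℝ) ≤ (qf a b c (u - v) : ℝ) := by
  have := qf_pos a b c d ha hd hdp (u - v) (sub_ne_zero.2 h)
  exact_mod_cast this

theorem pack (a b c d : ℤ) (ha : 0 < a) (hd : a * c - b ^ 2 = d) (hdp : 0 < d)
    (P : Finset (ℤ × ℤ)) (al be : ℝ) (h1 : 1 ≤ be) (h2 : be ≤ al) (hR : InRect a b c P al be) :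
    (P.card : ℝ) ≤ 9 * (al * be) := by
  classical
  obtain ⟨f, g, hfg, hb⟩ := hR
  rcases P.eq_empty_or_nonempty with rfl | hne
  · have hal0 : 0 < al * be := mul_pos (by linarith) (by linarith)
    simp only [Finset.card_empty, Nat.cast_zero]
    linarith
  obtain ⟨u₁, hu₁, hmin₁⟩ := Finset.exists_min_image P (fun u => f u) hne
  obtain ⟨u₂, hu₂, hmin₂⟩ := Finset.exists_min_image P (fun u => g u) hne
  have hF : ∀ u ∈ P, 0 ≤ f u - f u₁ ∧ f u - f u₁ ≤ al := by
    intro u hu
    refine ⟨by linarith [hmin₁ u hu], ?_⟩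
    have := (hb u hu u₁ hu₁).1
    rw [map_sub] at this
    exact (le_abs_self _).trans this
  have hG : ∀ u ∈ P, 0 ≤ g u - g u₂ ∧ g u - g u₂ ≤ be := by
    intro u hu
    refine ⟨by linarith [hmin₂ u hu], ?_⟩
    have := (hb u hu u₂ hu₂).2
    rw [map_sub] at this
    exact (le_abs_self _).trans this
  have hcard : P.card ≤ ((Finset.range (⌊2 * al⌋₊ + 1)) ×ˢ (Finset.range (⌊2 * be⌋₊ + 1))).card := by
    apply Finset.card_le_card_of_injOn (fun u => (⌊2 * (f u - f u₁)⌋₊, ⌊2 * (g u - g u₂)⌋₊))
    · intro u hu
      have hu' : u ∈ P := hu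
      simp only [Finset.coe_product, Set.mem_prod, Finset.coe_range, Set.mem_Iio]
      constructor
      · have := Nat.floor_le_floor (by linarith [(hF u hu').2] : 2 * (f u - f u₁) ≤ 2 * al)
        omega
      · have := Nat.floor_le_floor (by linarith [(hG u hu').2] : 2 * (g u - g u₂) ≤ 2 * be)
        omega
    · intro u hu v hv huv
      have hu' : u ∈ P := hu
      have hv' : v ∈ P := hv
      simp only [Prod.mk.injEq] at huv
      by_contra hne'
      have hq := one_le_q a b c d ha hd hdp u v hne'
      rw [hfg, map_sub, map_sub] at hq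
      have a1 := Nat.floor_le (by linarith [(hF u hu').1] : 0 ≤ 2 * (f u - f u₁))
      have a2 := Nat.lt_floor_add_one (2 * (f u - f u₁))
      have a3 := Nat.floor_le (by linarith [(hF v hv').1] : 0 ≤ 2 * (f v - f u₁))
      have a4 := Nat.lt_floor_add_one (2 * (f v - f u₁))
      have b1 := Nat.floor_le (by linarith [(hG u hu').1] : 0 ≤ 2 * (g u - g u₂))
      have b2 := Nat.lt_floor_add_one (2 * (g u - g u₂))
      have b3 := Nat.floor_le (by linarith [(hG v hv').1] : 0 ≤ 2 * (g v - g u₂))
      have b4 := Nat.lt_floor_add_one (2 * (g v - g u₂))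
      rw [huv.1] at a1 a2
      rw [huv.2] at b1 b2
      have c1 : f u - f v < 1 / 2 := by linarith
      have c2 : -(1 / 2) < f u - f v := by linarith
      have c3 : g u - g v < 1 / 2 := by linarith
      have c4 : -(1 / 2) < g u - g v := by linarith
      nlinarith
  rw [Finset.card_product, Finset.card_range, Finset.card_range] at hcard
  have hcr : (P.card : ℝ) ≤ ((⌊2 * al⌋₊ : ℝ) + 1) * ((⌊2 * be⌋₊ : ℝ) + 1) := by exact_mod_cast hcard
  have hal : (⌊2 * al⌋₊ : ℝ) ≤ 2 * al := Nat.floor_le (by linarith)
  have hbe : (⌊2 * be⌋₊ : ℝ) ≤ 2 * be := Nat.floor_le (by linarith)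
  calc (P.card : ℝ) ≤ ((⌊2 * al⌋₊ : ℝ) + 1) * ((⌊2 * be⌋₊ : ℝ) + 1) := hcr
    _ ≤ (3 * al) * (3 * be) := by
        apply mul_le_mul <;> first | linarith | positivity
    _ = 9 * (al * be) := by ring

/-- at most four points at mutual distance at least one in a box with sides less than one -/
theorem four_points (Y : Finset (ℤ × ℤ)) (F G : ℤ × ℤ → ℝ)
    (hF : ∀ u ∈ Y, ∀ v ∈ Y, F u - F v < 1) (hG : ∀ u ∈ Y, ∀ v ∈ Y, G u - G v < 1)
    (hsep : ∀ u ∈ Y, ∀ v ∈ Y, u ≠ v → 1 ≤ (F u - F v) ^ 2 + (G u - G v) ^ 2) : Y.card ≤ 4 := by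
  classical
  rcases Y.eq_empty_or_nonempty with rfl | hne
  · simp
  obtain ⟨u₁, hu₁, hmin₁⟩ := Finset.exists_min_image Y F hne
  obtain ⟨u₂, hu₂, hmin₂⟩ := Finset.exists_min_image Y G hne
  have hcard : Y.card ≤ ((Finset.range 2) ×ˢ (Finset.range 2)).card := by
    apply Finset.card_le_card_of_injOn (fun u => (⌊2 * (F u - F u₁)⌋₊, ⌊2 * (G u - G u₂)⌋₊))
    · intro u hu
      have hu' : u ∈ Y := hu
      simp only [Finset.coe_product, Set.mem_prod, Finset.coe_range, Set.mem_Iio]
      constructor
      · rw [Nat.floor_lt (by linarith [hmin₁ u hu'])]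
        have := hF u hu' u₁ hu₁
        push_cast
        linarith
      · rw [Nat.floor_lt (by linarith [hmin₂ u hu'])]
        have := hG u hu' u₂ hu₂
        push_cast
        linarith
    · intro u hu v hv huv
      have hu' : u ∈ Y := hu
      have hv' : v ∈ Y := hv
      simp only [Prod.mk.injEq] at huv
      by_contra hne'
      have hq := hsep u hu' v hv' hne'
      have a1 := Nat.floor_le (by linarith [hmin₁ u hu'] : 0 ≤ 2 * (F u - F u₁))
      have a2 := Nat.lt_floor_add_one (2 * (F u - F u₁))
      have a3 := Nat.floor_le (by linarith [hmin₁ v hv'] : 0 ≤ 2 * (F v - F u₁))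
      have a4 := Nat.lt_floor_add_one (2 * (F v - F u₁))
      have b1 := Nat.floor_le (by linarith [hmin₂ u hu'] : 0 ≤ 2 * (G u - G u₂))
      have b2 := Nat.lt_floor_add_one (2 * (G u - G u₂))
      have b3 := Nat.floor_le (by linarith [hmin₂ v hv'] : 0 ≤ 2 * (G v - G u₂))
      have b4 := Nat.lt_floor_add_one (2 * (G v - G u₂))
      rw [huv.1] at a1 a2
      rw [huv.2] at b1 b2
      have c1 : F u - F v < 1 / 2 := by linarith
      have c2 : -(1 / 2) < F u - F v := by linarith
      have c3 : G u - G v < 1 / 2 := by linarith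
      have c4 : -(1 / 2) < G u - G v := by linarith
      nlinarith
  simpa using hcard

theorem thin (a b c d : ℤ) (ha : 0 < a) (hd : a * c - b ^ 2 = d) (hdp : 0 < d)
    (P : Finset (ℤ × ℤ)) (al be : ℝ) (hbe : be < 1) (hR : InRect a b c P al be) :
    (P.card : ℝ) * (P.card - 1) / 8 ≤ (WW a b c P : ℝ) := by
  classical
  obtain ⟨f, g, hfg, hb⟩ := hR
  have hpoint : ∀ x ∈ P, P.card - 1 ≤ 8 * (pv a b c P x).card := by
    intro x hx
    have h1 : (P.erase x).card ≤ 8 * (pv a b c P x).card := by
      apply Finset.card_le_mul_card_image_of_maps_to (f := fun y => qf a b c (x - y))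
      · intro y hy
        exact Finset.mem_image_of_mem _ hy
      · intro m _
        set Y := (P.erase x).filter (fun y => qf a b c (x - y) = m) with hY
        have hYP : ∀ y ∈ Y, y ∈ P ∧ qf a b c (x - y) = m := by
          intro y hy
          rw [hY, Finset.mem_filter, Finset.mem_erase] at hy
          exact ⟨hy.1.2, hy.2⟩
        have hval : ∀ y ∈ Y, f (x - y) ^ 2 + g (x - y) ^ 2 = m := by
          intro y hy
          rw [← hfg, (hYP y hy).2]
        have hgd : ∀ u ∈ Y, ∀ v ∈ Y, g (x - u) - g (x - v) < 1 := by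
          intro u hu v hv
          have h := (hb v (hYP v hv).1 u (hYP u hu).1).2
          rw [map_sub] at h
          rw [map_sub, map_sub]
          linarith [(abs_le.1 h).2]
        have hgs : ∀ u ∈ Y, g (x - u) ^ 2 < 1 := by
          intro u hu
          have h := abs_le.1 (hb x hx u (hYP u hu).1).2
          nlinarith
        have hsep : ∀ u ∈ Y, ∀ v ∈ Y, u ≠ v →
            1 ≤ (f (x - u) - f (x - v)) ^ 2 + (g (x - u) - g (x - v)) ^ 2 := by
          intro u hu v hv huv
          have h := one_le_q a b c d ha hd hdp v u huv.symm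
          rw [hfg] at h
          rw [← map_sub, ← map_sub]
          have e : x - u - (x - v) = v - u := by abel
          rw [e]
          exact h
        have hpos : (Y.filter (fun y => 0 ≤ f (x - y))).card ≤ 4 := by
          apply four_points _ (fun y => f (x - y)) (fun y => g (x - y))
          · intro u hu v hv
            rw [Finset.mem_filter] at hu hv
            by_contra hlt
            rw [not_lt] at hlt
            have e1 := hval u hu.1
            have e2 := hval v hv.1
            have e3 := hgs v hv.1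
            have hu2 := hu.2
            have hv2 := hv.2
            have h3 : 1 ≤ (f (x - u) - f (x - v)) * (f (x - u) + f (x - v)) := by
              nlinarith
            nlinarith [sq_nonneg (g (x - u))]
          · intro u hu v hv
            rw [Finset.mem_filter] at hu hv
            exact hgd u hu.1 v hv.1
          · intro u hu v hv huv
            rw [Finset.mem_filter] at hu hv
            exact hsep u hu.1 v hv.1 huv
        have hneg : (Y.filter (fun y => ¬ 0 ≤ f (x - y))).card ≤ 4 := by
          apply four_points _ (fun y => f (x - y)) (fun y => g (x - y))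
          · intro u hu v hv
            rw [Finset.mem_filter, not_le] at hu hv
            by_contra hlt
            rw [not_lt] at hlt
            have e1 := hval u hu.1
            have e2 := hval v hv.1
            have e3 := hgs u hu.1
            have hu2 := hu.2
            have hv2 := hv.2
            have h3 : 1 ≤ (f (x - u) - f (x - v)) * (-(f (x - u)) - f (x - v)) := by
              nlinarith
            nlinarith [sq_nonneg (g (x - v))]
          · intro u hu v hv
            rw [Finset.mem_filter] at hu hv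
            exact hgd u hu.1 v hv.1
          · intro u hu v hv huv
            rw [Finset.mem_filter] at hu hv
            exact hsep u hu.1 v hv.1 huv
        have := Finset.card_filter_add_card_filter_not (s := Y) (fun y => 0 ≤ f (x - y))
        omega
    rw [Finset.card_erase_of_mem hx] at h1
    exact h1
  have hsum : P.card * (P.card - 1) ≤ 8 * WW a b c P := by
    unfold WW
    rw [Finset.mul_sum, ← smul_eq_mul, ← Finset.sum_const]
    exact Finset.sum_le_sum hpoint
  rcases Nat.eq_zero_or_pos P.card with h0 | h0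
  · rw [h0]
    simp
  · have h1 : ((P.card : ℝ)) * (P.card - 1) ≤ 8 * (WW a b c P : ℝ) := by
      have h2 : (((P.card - 1 : ℕ)) : ℝ) = (P.card : ℝ) - 1 := by
        rw [Nat.cast_sub h0]; simp
      rw [← h2]
      exact_mod_cast hsum
    linarith

end Pool.Agent.DLP
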