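import Pool.Agent.DLP.Tan
import Pool.Agent.DLP.Cos
import Pool.Agent.DLP.Ineq
import Pool.Agent.DLP.Pack
import Pool.Agent.DL.Spl

/-!
# DLP FORM (the induction)
-/

set_option autoImplicit false

namespace Pool.Agent.DLP

open Pool.Agent.DL

theorem exists_consts2 (C : ℝ) (hC : 0 ≤ C) :
    ∃ (Z : ℕ) (c : ℝ), 10 ≤ Z ∧ 1 ≤ Real.log (Z / 4) / 2 - 2 * C ∧
      2 * Real.log 3 + 8 * C ≤ Real.log Z ∧ 0 < c ∧
      c * (1 + Real.log (2 * Z) + √(1 + Real.log (2 * Z)) + 2 * C) ≤ 1 / (4 * Z) ∧
      c * (64 * (6 + 2 * C)) ≤ 1 ∧ c * Z ≤ 1 := by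
  obtain ⟨Z, hZ⟩ := exists_nat_ge (4 * Real.exp (2 * (1 + 2 * C)) + 9 * Real.exp (8 * C) + 10)
  have hp1 : 0 < Real.exp (2 * (1 + 2 * C)) := Real.exp_pos _
  have hp2 : 0 < Real.exp (8 * C) := Real.exp_pos _
  have hZr : (10 : ℝ) ≤ Z := by linarith
  have hZ10 : 10 ≤ Z := by exact_mod_cast hZr
  have hlog1 : 2 * (1 + 2 * C) ≤ Real.log (Z / 4) := by
    rw [Real.le_log_iff_exp_le (by positivity)]
    linarith
  have hlog2 : 2 * Real.log 3 + 8 * C ≤ Real.log Z := by
    rw [Real.le_log_iff_exp_le (by positivity), Real.exp_add, mul_comm 2, Real.exp_mul,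
      Real.exp_log (by norm_num)]
    norm_num
    linarith
  have hl : 0 ≤ Real.log (2 * Z) := Real.log_nonneg (by linarith)
  have hs : 0 ≤ √(1 + Real.log (2 * Z)) := Real.sqrt_nonneg _
  set X : ℝ := 1 + Real.log (2 * Z) + √(1 + Real.log (2 * Z)) + 2 * C with hX
  have hX1 : 1 ≤ X := by linarith
  have hY : 0 < 64 * (6 + 2 * C) := by linarith
  have hD : 0 < 4 * Z * X + 64 * (6 + 2 * C) := by positivity
  refine ⟨Z, 1 / (4 * Z * X + 64 * (6 + 2 * C)), hZ10, by linarith, hlog2, by positivity, ?_, ?_, ?_⟩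
  · rw [div_mul_eq_mul_div, one_mul, div_le_div_iff₀ hD (by positivity)]
    linarith
  · rw [div_mul_eq_mul_div, one_mul, div_le_one hD]
    have : 0 ≤ 4 * Z * X := by positivity
    linarith
  · rw [div_mul_eq_mul_div, one_mul, div_le_one hD]
    nlinarith

theorem log_nine : Real.log 9 ≤ 3 := by
  rw [Real.log_le_iff_le_exp (by norm_num)]
  have h1 : (2.7 : ℝ) < Real.exp 1 := by have := Real.exp_one_gt_d9; linarith
  have h2 : Real.exp 3 = Real.exp 1 ^ 3 := by rw [← Real.exp_nat_mul]; norm_num
  rw [h2]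
  nlinarith [sq_nonneg (Real.exp 1), mul_pos (by linarith : (0 : ℝ) < Real.exp 1)
    (by linarith : (0 : ℝ) < Real.exp 1)]

theorem card_le_WW (a b c : ℤ) (P : Finset (ℤ × ℤ)) (hP : 2 ≤ P.card) : P.card ≤ WW a b c P := by
  unfold WW
  rw [Finset.card_eq_sum_ones]
  apply Finset.sum_le_sum
  intro x hx
  have h1 : (P.erase x).Nonempty := by
    rw [← Finset.card_pos, Finset.card_erase_of_mem hx]; omega
  exact (h1.image _).card_pos

theorem card_sub_le_WW (a b c : ℤ) (P : Finset (ℤ × ℤ)) : (P.card : ℝ) - 1 ≤ (WW a b c P : ℝ) := by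
  rcases Nat.lt_or_ge P.card 2 with h | h
  · have h1 : (P.card : ℝ) ≤ 1 := by exact_mod_cast (by omega : P.card ≤ 1)
    have h2 : (0 : ℝ) ≤ (WW a b c P : ℝ) := by positivity
    linarith
  · have h1 : (P.card : ℝ) ≤ (WW a b c P : ℝ) := by exact_mod_cast card_le_WW a b c P h
    linarith

/-- the double count for the values seen from all points -/
theorem log_count_all (a b c d : ℤ) (ha : 0 < a) (hd : a * c - b ^ 2 = d) (hdp : 0 < d)
    (P : Finset (ℤ × ℤ)) (al be : ℝ) (h1 : 1 ≤ be) (h2 : be ≤ al) (hR : InRect a b c P al be)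
    (T : Finset ℕ) (hT : ∀ p ∈ T, p.Prime) :
    ∑ p ∈ T, Real.log p *
        ((∑ x ∈ P, ((pv a b c P x).filter (fun m => (p : ℤ) ∣ m)).card : ℕ) : ℝ) ≤
      (WW a b c P : ℝ) * (2 * Real.log al + Real.log 2) := by
  classical
  obtain ⟨f, g, hfg, hb⟩ := hR
  have hpt : ∀ x ∈ P, ∑ p ∈ T, Real.log p *
      ((((pv a b c P x).filter (fun m => (p : ℤ) ∣ m)).card : ℕ) : ℝ) ≤
      (pv a b c P x).card * (2 * Real.log al + Real.log 2) := by
    intro x hx
    apply log_count (pv a b c P x) _ _ T hT
    intro m hm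
    simp only [pv, Finset.mem_image, Finset.mem_erase] at hm
    obtain ⟨y, ⟨hy1, hy2⟩, rfl⟩ := hm
    have hpos : 0 < qf a b c (x - y) := qf_pos a b c d ha hd hdp _ (sub_ne_zero.2 hy1.symm)
    refine ⟨hpos, ?_⟩
    have hposr : (0 : ℝ) < (qf a b c (x - y) : ℝ) := by exact_mod_cast hpos
    have hle : (qf a b c (x - y) : ℝ) ≤ 2 * al ^ 2 := by
      rw [hfg]
      have e1 := (hb x hx y hy2).1
      have e2 := (hb x hx y hy2).2
      have e3 : f (x - y) ^ 2 ≤ al ^ 2 := by
        rw [← sq_abs]; exact pow_le_pow_left₀ (abs_nonneg _) e1 2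
      have e4 : g (x - y) ^ 2 ≤ be ^ 2 := by
        rw [← sq_abs]; exact pow_le_pow_left₀ (abs_nonneg _) e2 2
      have e5 : be ^ 2 ≤ al ^ 2 := pow_le_pow_left₀ (by linarith) h2 2
      linarith
    have h := Real.log_le_log hposr hle
    have hal0 : 0 < al := by linarith
    rw [Real.log_mul (by norm_num) (by positivity), Real.log_pow] at h
    push_cast at h
    linarith
  calc ∑ p ∈ T, Real.log p *
        ((∑ x ∈ P, ((pv a b c P x).filter (fun m => (p : ℤ) ∣ m)).card : ℕ) : ℝ)
      = ∑ x ∈ P, ∑ p ∈ T, Real.log p *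
          ((((pv a b c P x).filter (fun m => (p : ℤ) ∣ m)).card : ℕ) : ℝ) := by
        rw [Finset.sum_comm]
        apply Finset.sum_congr rfl
        intro p _
        rw [Nat.cast_sum, Finset.mul_sum]
    _ ≤ ∑ x ∈ P, ((pv a b c P x).card : ℝ) * (2 * Real.log al + Real.log 2) :=
        Finset.sum_le_sum hpt
    _ = (WW a b c P : ℝ) * (2 * Real.log al + Real.log 2) := by
        unfold WW
        rw [Nat.cast_sum, Finset.sum_mul]

/-- the theorem for integral forms -/
theorem form_bound (d : ℕ) (hd : 1 ≤ d) :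
    ∃ c : ℝ, 0 < c ∧ ∀ (a b c' : ℤ), 0 < a → a * c' - b ^ 2 = d →
      ∀ (P : Finset (ℤ × ℤ)), 2 ≤ P.card → ∀ al be : ℝ, 1 ≤ be → be ≤ al →
        InRect a b c' P al be →
        hG c (Real.log (al * be) + 4) P.card ≤ (WW a b c' P : ℝ) := by
  obtain ⟨C, hC, hS⟩ := split_density d hd
  obtain ⟨Z, c, hZ, hZ2, hZ3, hc, hc1, hc2, hcZ⟩ := exists_consts2 C hC
  refine ⟨c, hc, ?_⟩
  have hdz : (0 : ℤ) < (d : ℤ) := by exact_mod_cast hd
  suffices H : ∀ k : ℕ, ∀ (a b c' : ℤ), 0 < a → a * c' - b ^ 2 = d →
      ∀ (P : Finset (ℤ × ℤ)), 2 ≤ P.card → ∀ al be : ℝ, 1 ≤ be → be ≤ al → al ^ 2 ≤ 2 ^ k →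
        InRect a b c' P al be →
        hG c (Real.log (al * be) + 4) P.card ≤ (WW a b c' P : ℝ) by
    intro a b c' ha hdet P hP al be h1 h2 hR
    obtain ⟨k, hk⟩ := pow_unbounded_of_one_lt (al ^ 2) (by norm_num : (1 : ℝ) < 2)
    exact H k a b c' ha hdet P hP al be h1 h2 hk.le hR
  intro k
  induction k with
  | zero =>
    intro a b c' ha hdet P hP al be h1 h2 hk hR
    have hpk := pack a b c' d ha hdet hdz P al be h1 h2 hR
    have hal : al ≤ 1 := by
      rw [pow_zero] at hk
      nlinarith
    have hn9 : (P.card : ℝ) ≤ 9 := by nlinarith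
    have hnr : (2 : ℝ) ≤ P.card := by exact_mod_cast hP
    have hlogn : Real.log P.card ≤ 3 :=
      (Real.log_le_log (by linarith) hn9).trans log_nine
    have hab : 0 ≤ Real.log (al * be) := Real.log_nonneg (by nlinarith)
    have hW : (P.card : ℝ) ≤ (WW a b c' P : ℝ) := by exact_mod_cast card_le_WW a b c' P hP
    refine le_trans ?_ hW
    unfold hG
    have hlogn0 : 0 ≤ Real.log P.card := Real.log_nonneg (by linarith)
    have hs : 1 ≤ √((Real.log (al * be) + 4 - Real.log P.card) * (Real.log (al * be) + 4)) := by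
      rw [Real.one_le_sqrt]; nlinarith
    rw [div_le_iff₀ (by linarith)]
    have hZr : (10 : ℝ) ≤ Z := by exact_mod_cast hZ
    have h3 : c * P.card ≤ 1 := by
      have h4 : P.card ≤ Z := by
        have : P.card ≤ 9 := by exact_mod_cast hn9
        omega
      calc c * P.card ≤ c * Z := by gcongr
        _ ≤ 1 := hcZ
    calc c * (P.card : ℝ) ^ 2 = (c * P.card) * P.card := by ring
      _ ≤ 1 * P.card := by gcongr
      _ = P.card * 1 := by ring
      _ ≤ _ := by gcongr
  | succ k ih =>
    intro a b c' ha hdet P hP al be h1 h2 hk hR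
    have hpk := pack a b c' d ha hdet hdz P al be h1 h2 hR
    have hal0 : 0 < al := by linarith
    have hbe0 : 0 < be := by linarith
    have hnr : (2 : ℝ) ≤ P.card := by exact_mod_cast hP
    have hn0 : (0 : ℝ) < P.card := by linarith
    have hlogn0 : 0 ≤ Real.log P.card := Real.log_nonneg (by linarith)
    set A : ℝ := Real.log (al * be) + 4 with hA
    have hpack : ∀ (Q : ℕ) (u v : ℝ), 1 ≤ Q → 0 < u → 0 < v → (Q : ℝ) ≤ 9 * (u * v) →
        1 ≤ Real.log (u * v) + 4 - Real.log Q := by
      intro Q u v hQ hu hv h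
      have hQr : (0 : ℝ) < Q := by exact_mod_cast hQ
      have h3 := Real.log_le_log hQr h
      rw [Real.log_mul (by norm_num) (by positivity)] at h3
      have := log_nine
      linarith
    have hL : 1 ≤ A - Real.log P.card := hpack P.card al be (by omega) hal0 hbe0 hpk
    have hW : (P.card : ℝ) ≤ (WW a b c' P : ℝ) := by exact_mod_cast card_le_WW a b c' P hP
    by_cases hnZ : P.card < Z
    · refine le_trans ?_ hW
      unfold hG
      have hs : 1 ≤ √((A - Real.log P.card) * A) := by
        rw [Real.one_le_sqrt]; nlinarith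
      rw [div_le_iff₀ (by linarith)]
      have h3 : c * P.card ≤ 1 := by
        calc c * P.card ≤ c * Z := by
              gcongr
          _ ≤ 1 := hcZ
      calc c * (P.card : ℝ) ^ 2 = (c * P.card) * P.card := by ring
        _ ≤ 1 * P.card := by gcongr
        _ = P.card * 1 := by ring
        _ ≤ _ := by gcongr
    · rw [not_lt] at hnZ
      set n := P.card with hn
      set L : ℝ := A - Real.log n with hLd
      set D : ℕ → ℝ := fun p =>
        ((∑ x ∈ P, ((pv a b c' P x).filter (fun m => (p : ℤ) ∣ m)).card : ℕ) : ℝ) / n with hDd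
      have hstep : gg c L n ≤ (WW a b c' P : ℝ) / n := by
        have hy0 : 0 ≤ Real.log be := Real.log_nonneg h1
        have hxy : Real.log be ≤ Real.log al := Real.log_le_log hbe0 h2
        have hexp : Real.exp (2 * Real.log be) = be ^ 2 := by
          rw [mul_comm, Real.exp_mul, Real.exp_log hbe0]
          norm_num
        -- the cosets of one prime
        have hprime : ∀ p, Split d p → 2 * p ≤ n →
            ∃ (a₁ b₁ c₁ : ℤ) (Q : Fin p → Finset (ℤ × ℤ)), 0 < a₁ ∧ a₁ * c₁ - b₁ ^ 2 = d ∧
              (∑ i, (Q i).card = n) ∧ (∀ i, InRect a₁ b₁ c₁ (Q i) (al / √p) (be / √p)) ∧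
              (∑ i, (WW a₁ b₁ c₁ (Q i) : ℝ)) ≤ n * D p := by
          intro p hp _
          obtain ⟨a₁, b₁, c₁, Q, h3, h4, h5, h6, h7⟩ := cosets a b c' d ha hdet p hp P al be hR
          refine ⟨a₁, b₁, c₁, Q, h3, h4, h5, h6, ?_⟩
          rw [hDd]
          dsimp only
          rw [mul_div_cancel₀ _ hn0.ne']
          exact_mod_cast h7
        apply step2 d C hC hS Z hZ hZ2 hZ3 c hc hc1 hc2 n hnZ (Real.log al) (Real.log be) hy0 L hL
          _ hxy _ D
        · -- hD1
          intro p hp hpn
          obtain ⟨a₁, b₁, c₁, Q, h3, h4, h5, h6, h7⟩ := hprime p hp hpn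
          have h8 : (n : ℝ) - p ≤ ∑ i, (WW a₁ b₁ c₁ (Q i) : ℝ) := by
            have h9 := Finset.sum_le_sum (fun i (_ : i ∈ Finset.univ) => card_sub_le_WW a₁ b₁ c₁ (Q i))
            rw [Finset.sum_sub_distrib, ← Nat.cast_sum, h5] at h9
            simpa using h9
          have h9 : 2 * (p : ℝ) ≤ n := by exact_mod_cast hpn
          have h10 : (n : ℝ) / 2 ≤ n * D p := by linarith
          have h11 : (n : ℝ) * (1 / 2) ≤ n * D p := by linarith
          exact le_of_mul_le_mul_left h11 hn0
        · -- hD2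
          intro p hp hpn hpe
          rw [hexp] at hpe
          obtain ⟨a₁, b₁, c₁, Q, h3, h4, h5, h6, h7⟩ := hprime p hp hpn
          have hp0 := hp.1.pos
          have hpr : (0 : ℝ) < p := by exact_mod_cast hp0
          have hp2 : (2 : ℝ) ≤ p := by exact_mod_cast hp.1.two_le
          have hsp : 0 < √(p : ℝ) := Real.sqrt_pos.2 hpr
          have hbe' : 1 ≤ be / √p := by
            rw [le_div_iff₀ hsp, one_mul]
            calc √(p : ℝ) ≤ √(be ^ 2) := Real.sqrt_le_sqrt hpe
              _ = be := Real.sqrt_sq hbe0.le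
          have halbe' : be / √p ≤ al / √p := by gcongr
          have hal' : (al / √p) ^ 2 ≤ 2 ^ k := by
            rw [div_pow, Real.sq_sqrt hpr.le, div_le_iff₀ hpr]
            have hk2 : (2 : ℝ) ^ (k + 1) = 2 ^ k * 2 := pow_succ _ _
            rw [hk2] at hk
            have : (0 : ℝ) < 2 ^ k := by positivity
            nlinarith
          have hprod : al / √p * (be / √p) = al * be / p := by
            rw [div_mul_div_comm, Real.mul_self_sqrt hpr.le]
          have hlogprod : Real.log (al / √p * (be / √p)) + 4 = A - Real.log p := by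
            rw [hprod, Real.log_div (by positivity) hpr.ne', hA]; ring
          have hlognp : Real.log (n / p) = Real.log n - Real.log p := Real.log_div hn0.ne' hpr.ne'
          have hav := avg c (A - Real.log p) hc.le p n hp0 hpn
            (by rw [hlognp]; linarith) (fun i => (Q i).card) h5
            (fun i => (WW a₁ b₁ c₁ (Q i) : ℝ)) (fun i => by positivity)
            (by
              intro i hi
              have h8 := pack a₁ b₁ c₁ d h3 h4 hdz (Q i) _ _ hbe' halbe' (h6 i)
              have h9 := hpack (Q i).card (al / √p) (be / √p) hi (by positivity) (by positivity) h8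
              rw [hlogprod] at h9
              linarith)
            (by
              intro i hi
              have h8 := ih a₁ b₁ c₁ h3 h4 (Q i) hi _ _ hbe' halbe' hal' (h6 i)
              rw [hlogprod] at h8
              exact h8)
          have h8 := hav.trans h7
          unfold hG at h8
          rw [hlognp] at h8
          rw [hlognp]
          have e1 : A - Real.log p - (Real.log n - Real.log p) = L := by rw [hLd]; ring
          have e2 : A - Real.log p = Real.log n - Real.log p + L := by rw [hLd]; ring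
          rw [e1, e2] at h8
          have e3 : (p : ℝ) * (c * ((n : ℝ) / p) ^ 2 / √(L * (Real.log n - Real.log p + L))) =
              n * (c * (n / p) / √(L * (Real.log n - Real.log p + L))) := by
            field_simp
          rw [e3] at h8
          exact le_of_mul_le_mul_left h8 hn0
        · -- hD3
          intro p hp hpn hpe
          rw [hexp] at hpe
          obtain ⟨a₁, b₁, c₁, Q, h3, h4, h5, h6, h7⟩ := hprime p hp hpn
          have hp0 := hp.1.pos
          have hpr : (0 : ℝ) < p := by exact_mod_cast hp0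
          have hsp : 0 < √(p : ℝ) := Real.sqrt_pos.2 hpr
          have hbe' : be / √p < 1 := by
            rw [div_lt_one hsp]
            calc be = √(be ^ 2) := (Real.sqrt_sq hbe0.le).symm
              _ < √(p : ℝ) := Real.sqrt_lt_sqrt (by positivity) hpe
          have h8 : ∀ i, ((Q i).card : ℝ) * ((Q i).card - 1) / 8 ≤ (WW a₁ b₁ c₁ (Q i) : ℝ) :=
            fun i => thin a₁ b₁ c₁ d h3 h4 hdz (Q i) _ _ hbe' (h6 i)
          have h9 := Finset.sum_le_sum (fun i (_ : i ∈ Finset.univ) => h8 i)
          have h10 : ∑ i, ((Q i).card : ℝ) = n := by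
            rw [← Nat.cast_sum, h5]
          have h11 : (n : ℝ) ^ 2 ≤ p * ∑ i, ((Q i).card : ℝ) ^ 2 := by
            have := sq_sum_le_card_mul_sum_sq (s := (Finset.univ : Finset (Fin p)))
              (f := fun i => ((Q i).card : ℝ))
            rw [h10, Finset.card_univ, Fintype.card_fin] at this
            exact this
          have h12 : ∑ i, ((Q i).card : ℝ) * ((Q i).card - 1) / 8 =
              (∑ i, ((Q i).card : ℝ) ^ 2 - n) / 8 := by
            rw [← h10, ← Finset.sum_sub_distrib, Finset.sum_div]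
            apply Finset.sum_congr rfl
            intro i _
            ring
          rw [h12] at h9
          have h13 : 2 * (p : ℝ) ≤ n := by exact_mod_cast hpn
          have h14 : (n : ℝ) ^ 2 / p ≤ ∑ i, ((Q i).card : ℝ) ^ 2 := by
            rw [div_le_iff₀ hpr, mul_comm]
            exact h11
          have h15 : (n : ℝ) ≤ (n : ℝ) ^ 2 / p / 2 := by
            rw [le_div_iff₀ (by norm_num), le_div_iff₀ hpr]
            nlinarith
          have h16 : (n : ℝ) * (n / (16 * p)) ≤ n * D p := by
            have e : (n : ℝ) * (n / (16 * p)) = (n : ℝ) ^ 2 / p / 16 := by field_simp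
            rw [e]
            linarith
          exact le_of_mul_le_mul_left h16 hn0
        · -- hV
          have h3 := log_count_all a b c' d ha hdet hdz P al be h1 h2 hR (sp d 0 (n / 2)) (by
            intro p hp
            simp only [sp, Finset.mem_filter] at hp
            exact hp.2.1)
          rw [hDd]
          have e : ∑ p ∈ sp d 0 (n / 2), Real.log p *
              (((∑ x ∈ P, ((pv a b c' P x).filter (fun m => (p : ℤ) ∣ m)).card : ℕ) : ℝ) / n) =
              (∑ p ∈ sp d 0 (n / 2), Real.log p *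
              ((∑ x ∈ P, ((pv a b c' P x).filter (fun m => (p : ℤ) ∣ m)).card : ℕ) : ℝ)) / n := by
            rw [Finset.sum_div]
            apply Finset.sum_congr rfl
            intro p _
            ring
          dsimp only
          rw [e, div_mul_eq_mul_div]
          exact div_le_div_of_nonneg_right h3 hn0.le
        · -- the equation for L
          rw [hLd, hA, Real.log_mul hal0.ne' hbe0.ne']
          ring
      rw [le_div_iff₀ hn0] at hstep
      refine le_trans (le_of_eq ?_) hstep
      unfold hG gg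
      rw [← hLd]
      have e : Real.log n + L = A := by rw [hLd]; ring
      rw [e]
      ring

end Pool.Agent.DLP
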