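import Pool.Agent.DLP.Form
import Pool.Agent.DL.Main

/-!
# DLP MAIN
-/

set_option autoImplicit false

namespace Pool.Agent.DLP

open Pool.Agent.DL
open scoped RealInnerProductSpace

/-- the lattice vector as an additive map -/
noncomputable def lvHom (b₁ b₂ : EuclideanSpace ℝ (Fin 2)) : ℤ × ℤ →+ EuclideanSpace ℝ (Fin 2) where
  toFun := lv b₁ b₂
  map_zero' := by simp [lv]
  map_add' u v := by
    simp only [lv, Prod.fst_add, Prod.snd_add, Int.cast_add, add_smul]
    abel

/-- coordinate along a direction, scaled -/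
noncomputable def coord (b₁ b₂ e : EuclideanSpace ℝ (Fin 2)) (r : ℝ) : ℤ × ℤ →+ ℝ where
  toFun v := r * ⟪e, lv b₁ b₂ v⟫
  map_zero' := by
    have : lv b₁ b₂ 0 = 0 := (lvHom b₁ b₂).map_zero
    rw [this, inner_zero_right, mul_zero]
  map_add' u v := by
    have : lv b₁ b₂ (u + v) = lv b₁ b₂ u + lv b₁ b₂ v := (lvHom b₁ b₂).map_add u v
    rw [this, inner_add_right, mul_add]

theorem InRect.swap {a b c : ℤ} {P : Finset (ℤ × ℤ)} {al be : ℝ} (h : InRect a b c P al be) :
    InRect a b c P be al := by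
  obtain ⟨f, g, h1, h2⟩ := h
  exact ⟨g, f, fun v => by rw [h1]; ring, fun u hu v hv => (h2 u hu v hv).symm⟩

/-- rectangle bound without the ordering of the sides -/
theorem form_bound' (d : ℕ) (hd : 1 ≤ d) :
    ∃ c : ℝ, 0 < c ∧ ∀ (a b c' : ℤ), 0 < a → a * c' - b ^ 2 = d →
      ∀ (P : Finset (ℤ × ℤ)), 2 ≤ P.card → ∀ al be : ℝ, 0 ≤ al → 0 ≤ be →
        InRect a b c' P al be →
        (P.card : ℝ) ^ 2 / 16 ≤ (WW a b c' P : ℝ) ∨
        (0 < al * be ∧ 1 ≤ Real.log (al * be) + 4 - Real.log P.card ∧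
          hG c (Real.log (al * be) + 4) P.card ≤ (WW a b c' P : ℝ)) := by
  obtain ⟨c, hc, H⟩ := form_bound d hd
  refine ⟨c, hc, ?_⟩
  have hdz : (0 : ℤ) < (d : ℤ) := by exact_mod_cast hd
  have main : ∀ (a b c' : ℤ), 0 < a → a * c' - b ^ 2 = d →
      ∀ (P : Finset (ℤ × ℤ)), 2 ≤ P.card → ∀ al be : ℝ, be ≤ al →
        InRect a b c' P al be →
        (P.card : ℝ) ^ 2 / 16 ≤ (WW a b c' P : ℝ) ∨
        (0 < al * be ∧ 1 ≤ Real.log (al * be) + 4 - Real.log P.card ∧
          hG c (Real.log (al * be) + 4) P.card ≤ (WW a b c' P : ℝ)) := by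
    intro a b c' ha hdet P hP al be hab hR
    have hnr : (2 : ℝ) ≤ P.card := by exact_mod_cast hP
    rcases lt_or_ge be 1 with hbe | hbe
    · left
      have h1 := thin a b c' d ha hdet hdz P al be hbe hR
      refine le_trans ?_ h1
      nlinarith
    · right
      have hal0 : 0 < al := by linarith
      have hbe0 : 0 < be := by linarith
      refine ⟨by positivity, ?_, H a b c' ha hdet P hP al be hbe hab hR⟩
      have h3 := Real.log_le_log (by linarith) (pack a b c' d ha hdet hdz P al be hbe hab hR)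
      rw [Real.log_mul (by norm_num) (by positivity)] at h3
      have := log_nine
      linarith
  intro a b c' ha hdet P hP al be _ _ hR
  rcases le_total be al with h | h
  · exact main a b c' ha hdet P hP al be h hR
  · have := main a b c' ha hdet P hP be al h hR.swap
    rw [mul_comm be al] at this
    exact this

theorem log_aux (n R : ℝ) (hn : 2 ≤ n) (hR : 0 ≤ R) :
    Real.log 2 ≤ Real.log (2 + R / n) ∧ Real.log 4 ≤ Real.log (2 * n + R) := by
  constructor
  · apply Real.log_le_log (by norm_num)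
    have : 0 ≤ R / n := by positivity
    linarith
  · apply Real.log_le_log (by norm_num)
    linarith

/-- pinned distances of a finite set in a similar copy of a lattice inside a rectangle -/
theorem lattice_pinned (b₁ b₂ : EuclideanSpace ℝ (Fin 2)) (hb : LinearIndependent ℝ ![b₁, b₂]) :
    ∃ c : ℝ, 0 < c ∧ ∀ (S : Finset (EuclideanSpace ℝ (Fin 2))) (x₀ : EuclideanSpace ℝ (Fin 2))
      (t α β : ℝ) (e : OrthonormalBasis (Fin 2) ℝ (EuclideanSpace ℝ (Fin 2))),
      2 ≤ S.card → 0 < t →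
      (∀ x ∈ S, ∃ m n : ℤ, x = x₀ + t • ((m : ℝ) • b₁ + (n : ℝ) • b₂)) →
      (∀ x ∈ S, ∀ y ∈ S, |⟪e 0, x - y⟫| ≤ t * α ∧ |⟪e 1, x - y⟫| ≤ t * β) →
      c * (S.card : ℝ) ^ 2 / √(Real.log (2 + α * β / S.card) * Real.log (2 * S.card + α * β)) ≤
        ∑ x ∈ S, (((S.erase x).image (fun y => dist x y)).card : ℝ) := by
  classical
  obtain ⟨hal, hdet⟩ := gram_pos b₁ b₂ hb
  have hl2 : (0.69 : ℝ) < Real.log 2 := by have := Real.log_two_gt_d9; linarith
  have hl4 : (1.38 : ℝ) < Real.log 4 := by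
    have : Real.log 4 = 2 * Real.log 2 := by
      rw [show (4 : ℝ) = 2 ^ 2 by norm_num, Real.log_pow]; norm_num
    linarith
  -- common preparations
  have prep : ∀ (S : Finset (EuclideanSpace ℝ (Fin 2))) (x₀ : EuclideanSpace ℝ (Fin 2)) (t : ℝ),
      0 < t → (∀ x ∈ S, ∃ m n : ℤ, x = x₀ + t • ((m : ℝ) • b₁ + (n : ℝ) • b₂)) →
      ∃ φ : EuclideanSpace ℝ (Fin 2) → ℤ × ℤ,
        Set.InjOn φ (S : Set (EuclideanSpace ℝ (Fin 2))) ∧
        (∀ x ∈ S, ∀ y ∈ S, x - y = t • lv b₁ b₂ (φ x - φ y)) ∧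
        (∀ x ∈ S, ∀ y ∈ S,
          QR (‖b₁‖ ^ 2) ⟪b₁, b₂⟫ (‖b₂‖ ^ 2) (φ x - φ y) = (dist x y / t) ^ 2) := by
    intro S x₀ t ht hS
    choose! m n hmn using hS
    have hsub : ∀ x ∈ S, ∀ y ∈ S, x - y = t • lv b₁ b₂ ((m x, n x) - (m y, n y)) := by
      intro x hx y hy
      rw [lv_sub, smul_sub]
      nth_rewrite 1 [hmn x hx]
      nth_rewrite 1 [hmn y hy]
      simp only [lv]
      abel
    refine ⟨fun x => (m x, n x), ?_, hsub, ?_⟩
    · intro x hx y hy hxy
      have hxy' : (m x, n x) = (m y, n y) := hxy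
      rw [hmn x hx, hmn y hy, (Prod.mk.inj hxy').1, (Prod.mk.inj hxy').2]
    · intro x hx y hy
      rw [← norm_lv]
      congr 1
      rw [dist_eq_norm, eq_div_iff ht.ne', hsub x hx y hy, norm_smul, Real.norm_eq_abs,
        abs_of_pos ht, mul_comm]
  have hnonneg : ∀ (S : Finset (EuclideanSpace ℝ (Fin 2))) (t α β : ℝ)
      (e : OrthonormalBasis (Fin 2) ℝ (EuclideanSpace ℝ (Fin 2))), 2 ≤ S.card → 0 < t →
      (∀ x ∈ S, ∀ y ∈ S, |⟪e 0, x - y⟫| ≤ t * α ∧ |⟪e 1, x - y⟫| ≤ t * β) → 0 ≤ α ∧ 0 ≤ β := by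
    intro S t α β e hS ht h
    obtain ⟨x, hx⟩ : S.Nonempty := Finset.card_pos.1 (by omega)
    have h1 := h x hx x hx
    simp only [sub_self, inner_zero_right, abs_zero] at h1
    exact ⟨nonneg_of_mul_nonneg_right h1.1 ht, nonneg_of_mul_nonneg_right h1.2 ht⟩
  by_cases hr : Rat (‖b₁‖ ^ 2) ⟪b₁, b₂⟫ (‖b₂‖ ^ 2)
  · obtain ⟨lam, a, b, c', hlam, h1, h2, h3⟩ := hr
    have hapos : 0 < a := by
      have : (0 : ℝ) < a := by rw [← h1]; positivity
      exact_mod_cast this
    have hdpos : 0 < a * c' - b ^ 2 := by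
      have : (0 : ℝ) < a * c' - b ^ 2 := by
        rw [← h1, ← h2, ← h3]
        have : lam * ‖b₁‖ ^ 2 * (lam * ‖b₂‖ ^ 2) - (lam * ⟪b₁, b₂⟫) ^ 2 =
          lam ^ 2 * (‖b₁‖ ^ 2 * ‖b₂‖ ^ 2 - ⟪b₁, b₂⟫ ^ 2) := by ring
        rw [this]; positivity
      exact_mod_cast this
    obtain ⟨d, hd⟩ : ∃ d : ℕ, a * c' - b ^ 2 = (d : ℤ) := ⟨(a * c' - b ^ 2).toNat, by
      rw [Int.toNat_of_nonneg hdpos.le]⟩
    have hd1 : 1 ≤ d := by
      have : (0 : ℤ) < (d : ℤ) := by rw [← hd]; exact hdpos
      exact_mod_cast this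
    have hqq : ∀ v : ℤ × ℤ, (qf a b c' v : ℝ) =
        lam * QR (‖b₁‖ ^ 2) ⟪b₁, b₂⟫ (‖b₂‖ ^ 2) v := by
      intro v
      unfold qf QR
      push_cast
      rw [← h1, ← h2, ← h3]
      ring
    obtain ⟨c₀, hc₀, hform⟩ := form_bound' d hd1
    set M : ℝ := 4 + Real.log (1 + lam) with hM
    have hlog1 : 0 ≤ Real.log (1 + lam) := Real.log_nonneg (by linarith)
    have hM1 : 1 ≤ M := by linarith
    refine ⟨min (c₀ / (1 + 2 * M)) (1 / 32), by positivity, ?_⟩
    intro S x₀ t α β e hS ht hmem hrect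
    obtain ⟨φ, hinj, hsub, hdd⟩ := prep S x₀ t ht hmem
    obtain ⟨hα, hβ⟩ := hnonneg S t α β e hS ht hrect
    have hnr : (2 : ℝ) ≤ S.card := by exact_mod_cast hS
    have hR0 : 0 ≤ α * β := mul_nonneg hα hβ
    obtain ⟨hA, hB⟩ := log_aux S.card (α * β) hnr hR0
    set A := Real.log (2 + α * β / S.card) with hAdef
    set B := Real.log (2 * S.card + α * β) with hBdef
    have hApos : 0 < A := by linarith
    have hBpos : 0 < B := by linarith
    set P := S.image φ with hP
    have hPc : P.card = S.card := Finset.card_image_of_injOn hinj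
    have hslam : 0 < √lam := Real.sqrt_pos.2 hlam
    -- the rectangle
    have hInR : InRect a b c' P (√lam * α) (√lam * β) := by
      refine ⟨coord b₁ b₂ (e 0) √lam, coord b₁ b₂ (e 1) √lam, ?_, ?_⟩
      · intro v
        rw [hqq, ← norm_lv, ← e.sum_sq_norm_inner_right (lv b₁ b₂ v), Fin.sum_univ_two]
        simp only [coord, AddMonoidHom.coe_mk, ZeroHom.coe_mk]
        rw [mul_pow, mul_pow, Real.sq_sqrt hlam.le, Real.norm_eq_abs, Real.norm_eq_abs, sq_abs,
          sq_abs]
        ring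
      · intro u hu v hv
        obtain ⟨x, hx, rfl⟩ := Finset.mem_image.1 hu
        obtain ⟨y, hy, rfl⟩ := Finset.mem_image.1 hv
        have hxy := hrect x hx y hy
        rw [hsub x hx y hy, inner_smul_right, inner_smul_right, abs_mul, abs_mul, abs_of_pos ht] at hxy
        simp only [coord, AddMonoidHom.coe_mk, ZeroHom.coe_mk]
        rw [abs_mul, abs_mul, abs_of_pos hslam]
        exact ⟨mul_le_mul_of_nonneg_left (le_of_mul_le_mul_left hxy.1 ht) hslam.le,
          mul_le_mul_of_nonneg_left (le_of_mul_le_mul_left hxy.2 ht) hslam.le⟩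
    -- values versus distances
    have hWS : (WW a b c' P : ℝ) ≤
        ∑ x ∈ S, (((S.erase x).image (fun y => dist x y)).card : ℝ) := by
      have hnat : WW a b c' P ≤ ∑ x ∈ S, ((S.erase x).image (fun y => dist x y)).card := by
        unfold WW
        rw [hP, Finset.sum_image hinj]
        apply Finset.sum_le_sum
        intro x hx
        have hss : (pv a b c' (S.image φ) (φ x)).image (fun z : ℤ => (z : ℝ)) ⊆
            ((S.erase x).image (fun y => dist x y)).image (fun r => lam * (r / t) ^ 2) := by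
          intro q hq
          simp only [pv, Finset.mem_image, Finset.mem_erase] at hq ⊢
          obtain ⟨z, ⟨w, ⟨hw1, y, hy, rfl⟩, rfl⟩, rfl⟩ := hq
          refine ⟨dist x y, ⟨y, ⟨?_, hy⟩, rfl⟩, ?_⟩
          · rintro rfl
            exact hw1 rfl
          · rw [hqq, hdd x hx y hy]
        have hc1 := (Finset.card_le_card hss).trans Finset.card_image_le
        rwa [Finset.card_image_of_injective _ Int.cast_injective] at hc1
      exact_mod_cast hnat
    refine le_trans ?_ hWS
    have hroot : (1 / 2 : ℝ) ≤ √(A * B) := by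
      apply Real.le_sqrt_of_sq_le
      nlinarith
    have hroot0 : 0 < √(A * B) := by linarith
    rcases hform a b c' hapos hd P (by omega) (√lam * α) (√lam * β) (by positivity) (by positivity)
      hInR with hcase | ⟨hpos, hLL, hcase⟩
    · refine le_trans ?_ hcase
      rw [hPc, div_le_iff₀ hroot0]
      have h4 : min (c₀ / (1 + 2 * M)) (1 / 32) ≤ 1 / 32 := min_le_right _ _
      have h5 : 0 ≤ (S.card : ℝ) ^ 2 := by positivity
      calc min (c₀ / (1 + 2 * M)) (1 / 32) * (S.card : ℝ) ^ 2 ≤ 1 / 32 * (S.card : ℝ) ^ 2 := by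
            gcongr
        _ = (S.card : ℝ) ^ 2 / 16 * (1 / 2) := by ring
        _ ≤ (S.card : ℝ) ^ 2 / 16 * √(A * B) := by gcongr
    · refine le_trans ?_ hcase
      rw [hPc] at hLL ⊢
      have hprod : √lam * α * (√lam * β) = lam * (α * β) := by
        calc √lam * α * (√lam * β) = (√lam * √lam) * (α * β) := by ring
          _ = _ := by rw [Real.mul_self_sqrt hlam.le]
      rw [hprod] at hpos hLL ⊢
      set A₁ := Real.log (lam * (α * β)) + 4 with hA₁
      have hn0 : (0 : ℝ) < S.card := by linarith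
      have hlogn : 0 ≤ Real.log S.card := Real.log_nonneg (by linarith)
      have hA₁B : A₁ ≤ (1 + 2 * M) * B := by
        have h4 : Real.log (lam * (α * β)) ≤ Real.log (1 + lam) + B := by
          rw [hBdef, ← Real.log_mul (by linarith) (by positivity)]
          apply Real.log_le_log hpos
          nlinarith
        have h5 : A₁ ≤ M + B := by rw [hA₁, hM]; linarith
        nlinarith
      have hL₁A : A₁ - Real.log S.card ≤ (1 + 2 * M) * A := by
        have h4 : Real.log (lam * (α * β)) - Real.log S.card ≤ Real.log (1 + lam) + A := by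
          rw [hAdef, ← Real.log_mul (by linarith) (by positivity), ← Real.log_div hpos.ne' hn0.ne']
          apply Real.log_le_log (by positivity)
          rw [div_le_iff₀ hn0]
          have h5 : (1 + lam) * (2 + α * β / S.card) * S.card = (1 + lam) * (2 * S.card + α * β) := by
            field_simp
          rw [h5]
          nlinarith
        have h5 : A₁ - Real.log S.card ≤ M + A := by rw [hA₁, hM]; linarith
        nlinarith
      have hpr : (A₁ - Real.log S.card) * A₁ ≤ (1 + 2 * M) ^ 2 * (A * B) := by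
        calc (A₁ - Real.log S.card) * A₁ ≤ ((1 + 2 * M) * A) * ((1 + 2 * M) * B) :=
              mul_le_mul hL₁A hA₁B (by linarith) (by positivity)
          _ = _ := by ring
      have hsq : √((A₁ - Real.log S.card) * A₁) ≤ (1 + 2 * M) * √(A * B) := by
        calc √((A₁ - Real.log S.card) * A₁) ≤ √((1 + 2 * M) ^ 2 * (A * B)) := Real.sqrt_le_sqrt hpr
          _ = _ := by rw [Real.sqrt_mul (by positivity), Real.sqrt_sq (by positivity)]
      have hLp : 0 < √((A₁ - Real.log S.card) * A₁) := by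
        apply Real.sqrt_pos.2
        have : 0 < A₁ := by linarith
        exact mul_pos (by linarith) this
      unfold hG
      calc min (c₀ / (1 + 2 * M)) (1 / 32) * (S.card : ℝ) ^ 2 / √(A * B)
          ≤ c₀ / (1 + 2 * M) * (S.card : ℝ) ^ 2 / √(A * B) := by
            gcongr
            exact min_le_left _ _
        _ = c₀ * (S.card : ℝ) ^ 2 / ((1 + 2 * M) * √(A * B)) := by
            field_simp
        _ ≤ _ := div_le_div_of_nonneg_left (by positivity) hLp hsq
  · refine ⟨1 / 16, by norm_num, ?_⟩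
    intro S x₀ t α β e hS ht hmem hrect
    obtain ⟨φ, hinj, hsub, hdd⟩ := prep S x₀ t ht hmem
    obtain ⟨hα, hβ⟩ := hnonneg S t α β e hS ht hrect
    have hnr : (2 : ℝ) ≤ S.card := by exact_mod_cast hS
    have hR0 : 0 ≤ α * β := mul_nonneg hα hβ
    obtain ⟨hA, hB⟩ := log_aux S.card (α * β) hnr hR0
    have hroot : (1 / 2 : ℝ) ≤
        √(Real.log (2 + α * β / S.card) * Real.log (2 * S.card + α * β)) := by
      apply Real.le_sqrt_of_sq_le
      nlinarith
    have hpt : ∀ x ∈ S, ((S.card : ℝ) - 1) / 4 ≤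
        (((S.erase x).image (fun y => dist x y)).card : ℝ) := by
      intro x hx
      have h4 : (S.erase x).card ≤ 4 * ((S.erase x).image (fun y => dist x y)).card := by
        apply Finset.card_le_mul_card_image
        intro r _
        have h5 : (((S.erase x).filter (fun y => dist x y = r)).image (fun y => φ x - φ y)).card ≤ 4 := by
          apply four_solutions _ _ _ hal hdet hr _ ((r / t) ^ 2)
          intro v hv
          obtain ⟨y, hy, rfl⟩ := Finset.mem_image.1 hv
          rw [Finset.mem_filter, Finset.mem_erase] at hy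
          rw [hdd x hx y hy.1.2, hy.2]
        rwa [Finset.card_image_of_injOn] at h5
        intro y hy y' hy' h
        have hy1 := Finset.mem_filter.1 (Finset.mem_coe.1 hy)
        have hy2 := Finset.mem_filter.1 (Finset.mem_coe.1 hy')
        rw [Finset.mem_erase] at hy1 hy2
        have h' : φ x - φ y = φ x - φ y' := h
        exact hinj (Finset.mem_coe.2 hy1.1.2) (Finset.mem_coe.2 hy2.1.2) (sub_right_injective h')
      rw [Finset.card_erase_of_mem hx] at h4
      have h5 : S.card ≤ 4 * ((S.erase x).image (fun y => dist x y)).card + 1 := by omega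
      have h6 : (S.card : ℝ) ≤ 4 * (((S.erase x).image (fun y => dist x y)).card : ℝ) + 1 := by
        exact_mod_cast h5
      linarith
    have hsum := Finset.sum_le_sum hpt
    rw [Finset.sum_const, nsmul_eq_mul] at hsum
    refine le_trans ?_ hsum
    rw [div_le_iff₀ (by linarith)]
    have h7 : (S.card : ℝ) ^ 2 / 8 ≤ S.card * ((S.card - 1) / 4) := by nlinarith
    calc 1 / 16 * (S.card : ℝ) ^ 2 = (S.card : ℝ) ^ 2 / 8 * (1 / 2) := by ring
      _ ≤ (S.card * ((S.card - 1) / 4)) *
          √(Real.log (2 + α * β / S.card) * Real.log (2 * S.card + α * β)) :=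
          mul_le_mul h7 hroot (by norm_num) (by nlinarith)

end Pool.Agent.DLP
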