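import Pool.Agent.DLP.Defs

/-!
# DLP TAN (tangent line inequality)

`h s = c s² / √((A - log s) A)`, `u₀ = A - log s₀ ≥ 1`, `s = r s₀`, `t = log r / u₀ < 1`:
`h s = h s₀ · r² / √(1 - t) ≥ h s₀ · r² (1 + t/2) ≥ h s₀ (1 + k (r - 1))`, `k = 2 + 1/(2 u₀)`, because
`r² log r ≥ r (r - 1)`.
-/

set_option autoImplicit false

namespace Pool.Agent.DLP

/-- `(1 + t/2) √(1 - t) ≤ 1` for `t < 1` -/
theorem sqrt_aux (t : ℝ) (ht : t < 1) : (1 + t / 2) * √(1 - t) ≤ 1 := by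
  have hs : 0 ≤ √(1 - t) := Real.sqrt_nonneg _
  rcases le_or_gt (1 + t / 2) 0 with h | h
  · nlinarith [mul_nonneg (by linarith : 0 ≤ -(1 + t / 2)) hs]
  · have h1 : ((1 + t / 2) * √(1 - t)) ^ 2 ≤ 1 := by
      rw [mul_pow, Real.sq_sqrt (by linarith)]
      nlinarith [sq_nonneg t, mul_nonneg (sq_nonneg t) (by linarith : 0 ≤ t + 2)]
    have h2 : 0 ≤ (1 + t / 2) * √(1 - t) := mul_nonneg h.le hs
    nlinarith

theorem tan_core (r u : ℝ) (hr : 0 < r) (hu : 1 ≤ u) (ht : Real.log r < u) :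
    (1 + (2 + 1 / (2 * u)) * (r - 1)) * √(1 - Real.log r / u) ≤ r ^ 2 := by
  set t := Real.log r / u with htd
  have hu0 : 0 < u := by linarith
  have ht1 : t < 1 := by rw [htd, div_lt_one hu0]; exact ht
  have h1 := sqrt_aux t ht1
  have hs : 0 ≤ √(1 - t) := Real.sqrt_nonneg _
  have hlog : (r - 1) / r ≤ Real.log r := by
    have := Real.one_sub_inv_le_log_of_pos hr
    calc (r - 1) / r = 1 - r⁻¹ := by field_simp
      _ ≤ _ := this
  have h2 : r * (r - 1) ≤ r ^ 2 * Real.log r := by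
    have := mul_le_mul_of_nonneg_left hlog (by positivity : 0 ≤ r ^ 2)
    calc r * (r - 1) = r ^ 2 * ((r - 1) / r) := by field_simp
      _ ≤ _ := this
  -- 1 + k (r - 1) ≤ r² (1 + t/2)
  have h3 : 1 + (2 + 1 / (2 * u)) * (r - 1) ≤ r ^ 2 * (1 + t / 2) := by
    have e : r ^ 2 * (1 + t / 2) - (1 + (2 + 1 / (2 * u)) * (r - 1)) =
        (r - 1) ^ 2 + 1 / (2 * u) * (r ^ 2 * Real.log r - (r - 1)) := by
      rw [htd]; field_simp; ring
    have h4 : 0 ≤ r ^ 2 * Real.log r - (r - 1) := by nlinarith [sq_nonneg (r - 1)]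
    have h5 : 0 ≤ 1 / (2 * u) * (r ^ 2 * Real.log r - (r - 1)) := mul_nonneg (by positivity) h4
    nlinarith [sq_nonneg (r - 1)]
  calc (1 + (2 + 1 / (2 * u)) * (r - 1)) * √(1 - t) ≤ (r ^ 2 * (1 + t / 2)) * √(1 - t) :=
        mul_le_mul_of_nonneg_right h3 hs
    _ = r ^ 2 * ((1 + t / 2) * √(1 - t)) := by ring
    _ ≤ r ^ 2 * 1 := mul_le_mul_of_nonneg_left h1 (by positivity)
    _ = r ^ 2 := mul_one _

theorem hG_nonneg (c A s : ℝ) (hc : 0 ≤ c) : 0 ≤ hG c A s := by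
  unfold hG; positivity

/-- the tangent line inequality -/
theorem tan_line (c A s₀ s : ℝ) (hc : 0 ≤ c) (hs₀ : 1 ≤ s₀) (hu : 1 ≤ A - Real.log s₀) (hs : 0 < s)
    (hA : 0 < A - Real.log s) :
    hG c A s₀ * (1 + (2 + 1 / (2 * (A - Real.log s₀))) * (s / s₀ - 1)) ≤ hG c A s := by
  have hs₀p : 0 < s₀ := by linarith
  set u := A - Real.log s₀ with hud
  have hlog₀ : 0 ≤ Real.log s₀ := Real.log_nonneg hs₀
  have hAp : 0 < A := by linarith
  have hr : 0 < s / s₀ := by positivity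
  have hlr : Real.log (s / s₀) = Real.log s - Real.log s₀ := Real.log_div hs.ne' hs₀p.ne'
  have ht : Real.log (s / s₀) < u := by rw [hlr, hud]; linarith
  have h1 := tan_core (s / s₀) u hr hu ht
  have hu0 : 0 < u := by linarith
  have e1 : A - Real.log s = u * (1 - Real.log (s / s₀) / u) := by
    rw [mul_sub, mul_one, mul_div_cancel₀ _ hu0.ne', hlr, hud]; ring
  have hq : 0 < 1 - Real.log (s / s₀) / u := by
    rw [sub_pos, div_lt_one hu0]; exact ht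
  have hsq : 0 < √(1 - Real.log (s / s₀) / u) := Real.sqrt_pos.2 hq
  have e2 : √(u * (1 - Real.log (s / s₀) / u) * A) = √(u * A) * √(1 - Real.log (s / s₀) / u) := by
    rw [← Real.sqrt_mul (by positivity)]
    congr 1; ring
  unfold hG
  rw [← hud, e1, e2]
  have hroot : 0 < √(u * A) := Real.sqrt_pos.2 (by positivity)
  rw [div_mul_eq_mul_div, div_le_div_iff₀ hroot (by positivity)]
  have h2 : s ^ 2 = s₀ ^ 2 * (s / s₀) ^ 2 := by field_simp
  rw [h2]
  have h3 := mul_le_mul_of_nonneg_left h1 (by positivity : 0 ≤ c * s₀ ^ 2 * √(u * A))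
  calc c * s₀ ^ 2 * (1 + (2 + 1 / (2 * u)) * (s / s₀ - 1)) *
        (√(u * A) * √(1 - Real.log (s / s₀) / u))
      = c * s₀ ^ 2 * √(u * A) * ((1 + (2 + 1 / (2 * u)) * (s / s₀ - 1)) *
        √(1 - Real.log (s / s₀) / u)) := by ring
    _ ≤ c * s₀ ^ 2 * √(u * A) * (s / s₀) ^ 2 := h3
    _ = c * (s₀ ^ 2 * (s / s₀) ^ 2) * √(u * A) := by ring

/-- averaging over the `p` cosets -/
theorem avg (c A : ℝ) (hc : 0 ≤ c) (p n : ℕ) (hp : 0 < p) (hpn : 2 * p ≤ n)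
    (hu : 1 ≤ A - Real.log (n / p)) (s : Fin p → ℕ) (hs : ∑ i, s i = n) (W : Fin p → ℝ)
    (hW0 : ∀ i, 0 ≤ W i) (hpack : ∀ i, 1 ≤ s i → 0 < A - Real.log (s i))
    (hW : ∀ i, 2 ≤ s i → hG c A (s i) ≤ W i) :
    p * hG c A (n / p) ≤ ∑ i, W i := by
  have hpr : (0 : ℝ) < p := by exact_mod_cast hp
  have hs₀ : (2 : ℝ) ≤ (n : ℝ) / p := by
    rw [le_div_iff₀ hpr]; exact_mod_cast hpn
  set s₀ : ℝ := (n : ℝ) / p with hs₀d
  set k : ℝ := 2 + 1 / (2 * (A - Real.log s₀)) with hk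
  have hk2 : 2 ≤ k := by
    rw [hk]
    have : 0 ≤ 1 / (2 * (A - Real.log s₀)) := by positivity
    linarith
  have hh : 0 ≤ hG c A s₀ := hG_nonneg c A s₀ hc
  have hterm : ∀ i, hG c A s₀ * (1 + k * ((s i : ℝ) / s₀ - 1)) ≤ W i := by
    intro i
    by_cases h2 : 2 ≤ s i
    · have hsi : (0 : ℝ) < s i := by exact_mod_cast (by omega : 0 < s i)
      exact (tan_line c A s₀ (s i) hc (by linarith) hu hsi (hpack i (by omega))).trans (hW i h2)
    · refine le_trans ?_ (hW0 i)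
      have h1 : (s i : ℝ) ≤ 1 := by exact_mod_cast (by omega : s i ≤ 1)
      have h3 : (s i : ℝ) / s₀ ≤ 1 / 2 := by
        rw [div_le_iff₀ (by linarith)]; linarith
      have h4 : 1 + k * ((s i : ℝ) / s₀ - 1) ≤ 0 := by nlinarith
      exact mul_nonpos_of_nonneg_of_nonpos hh h4
  have hsum := Finset.sum_le_sum (fun i (_ : i ∈ Finset.univ) => hterm i)
  refine le_trans (le_of_eq ?_) hsum
  rw [← Finset.mul_sum, Finset.sum_add_distrib, ← Finset.mul_sum, Finset.sum_sub_distrib,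
    ← Finset.sum_div, ← Nat.cast_sum, hs]
  simp only [Finset.sum_const, Finset.card_univ, Fintype.card_fin, nsmul_eq_mul, mul_one]
  have e : (n : ℝ) / s₀ = p := by
    have hn0 : (n : ℝ) ≠ 0 := by
      have : (0 : ℝ) < n := by
        have : 0 < n := by omega
        exact_mod_cast this
      exact this.ne'
    rw [hs₀d]; field_simp
  rw [e]; ring

end Pool.Agent.DLP
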